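import Pool.Agent.Q57.ZI.TFin

/-!
# Finite index of the motivated classes implies the Mumford-Tate conjecture

Let `X` be a smooth projective variety over a finitely generated subfield of `ℂ`. The motivated
Mumford-Tate conjecture for the motives in the tensor category generated by `h(X)` asks that all Hodge
classes, and for every prime number `ℓ` all `ℓ`-adic Tate classes, on all powers of `X` be (combinations
of) motivated classes; it implies that Hodge classes and Tate classes on all powers are the same (the
Mumford-Tate conjecture for all motives in this category). We prove unconditionally:

* the quotient of the dimensions of the spaces of the Hodge classes and of the motivated classes on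
  `X^n` tends to an element `N'` of `ℕ ∪ {∞}`, and the one for the `ℓ`-adic Tate classes and the
  motivated classes tends to an element `N` of `ℕ ∪ {∞}` (and for the algebraic cycles modulo numerical
  equivalence instead of the motivated classes one gets `N' M` and `N M`, where `M ≥ 1` is the limit
  for the motivated classes and the algebraic cycles);
* if `N'` is finite (the motivated classes, for example the algebraic classes, do not have
  asymptotic proportion zero among the Hodge classes), then ALL Hodge classes on all powers of `X` are
  `ℓ`-adic Tate classes, for every `ℓ`, and `N' ≤ N`;
* if `N` is finite for a prime number `ℓ`, then ALL `ℓ`-adic Tate classes on all powers of `X` are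
  linear combinations of Hodge classes, and `N ≤ N'`;
* if both are finite, then Hodge classes and `ℓ`-adic Tate classes on all powers of `X` are the same (the
  Mumford-Tate conjecture), and `N = N'`.

So the motivated Mumford-Tate conjecture up to a finite index implies the Mumford-Tate conjecture.
The first implication is deduced from a finiteness theorem for germs of matrix coefficients on the
Galois group, and the second one from the connectedness of the Deligne torus and from the action of
the automorphisms of `ℂ` on the coefficients.

The theorem is proved for an arbitrary class of smooth projective varieties which is stable under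
products, a Hodge theory `T` on it, and every Weil cohomology theory `W'` with a comparison isomorphism
and a Galois action (`ℓ`-adic cohomology), the coefficients of which can be embedded into `ℂ`.
-/

open CategoryTheory AlgebraicGeometry

universe u w

namespace Pool.Agent.Results.MP_b8862a_ag.FiniteIndex

open Pool.Agent.H914
open Pool.Agent.Y121.AHS (HodgeTheory IsHodge)
open Pool.Agent.Y133.Half (pw)
open Pool.Agent.Q50.MO (Motivated)
open Pool.Agent.Q55 (GaloisAction IsTate)
open Pool.Agent.Q57.DS
open Pool.Agent.Q57.TM

variable {k : Type u} [Field k] {𝒱 : VarClass k} {ops : CycleOps 𝒱}

/-- **Finite index of the motivated classes among the Hodge classes or the Tate classes.** `pw X n` is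
the product of `n + 1` copies of `X`. -/
theorem result (T : HodgeTheory ops) (X : 𝒱.Obj) [Nontrivial (T.W.H X)] :
    ∃ N' M : ℕ∞, 1 ≤ N' ∧ 1 ≤ M ∧
      Index (fun n => dimP (IsHodge T) (pw X n)) (fun n => dimP (Motivated T.W) (pw X n)) N' ∧
      Index (fun n => dimP (Motivated T.W) (pw X n)) (fun n => cycRk ops (pw X n)) M ∧
      ∀ (W' : WeilCohomology.{u, 0} ops) (C : Compare T.W W') (Γ : Type w) [Group Γ]
        (G : GaloisAction W' Γ), Nonempty (W'.K →+* ℂ) → ∃ N : ℕ∞, 1 ≤ N ∧
        Index (fun n => dimP (IsTate G) (pw X n)) (fun n => dimP (Motivated T.W) (pw X n)) N ∧
        Index (fun n => dimP (IsTate G) (pw X n)) (fun n => cycRk ops (pw X n)) (N * M) ∧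
        (N' ≠ ⊤ → N' ≤ N ∧ ∀ n j c, IsHodge T (pw X n) j c →
          IsTate G (pw X n) j (C.f (pw X n) c)) ∧
        (N ≠ ⊤ → N ≤ N' ∧ ∀ n j c, IsTate G (pw X n) j c →
          Img C (IsHodge T) (pw X n) j c) :=
  Pool.Agent.Q57.ZI.t_finite_index T X

end Pool.Agent.Results.MP_b8862a_ag.FiniteIndex
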