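import Pool.Agent.Q207.HG.Hod

/-!
# Mumford–Tate groups of sums of hypergeometric motives and a fixed motive, for almost all tuples of fibres

The equation `θ^n f = z ∏_j (θ + α_j) f` with rational exponents `0 < α_j < 1`, `θ = z d/dz`, has maximally unipotent
monodromy at `z = 0`, and its solutions are periods of a family `H(α)` of motives of rank `n` with Hodge numbers
`1, 1, …, 1`. We consider the fibres `M_t = ⨁_{i, j} H(α_{i j})_{1 / t_i}` at integral points `t = (t_1, …, t_k)` of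
arbitrary finite direct sums, and an arbitrary fixed Hodge structure `W`.
-/

set_option autoImplicit false

open PowerSeries Q207.HM

namespace Pool.Agent.Results.MP_b8862a_ag.HypergeometricSumsMumfordTate

/-- the power series `k + ε` in the variable `ε` -/
noncomputable def shift (k : ℕ) : PowerSeries ℚ := C (k : ℚ) + X

/-- `a_k(ε) = ∏_{l < k} ∏_j (l + ε + α_j) / (l + 1 + ε)^n`. The series `∑_k a_k(ε) z^(k + ε)` solves the equation
`(θ^n - z ∏_j (θ + α_j)) f = ε^n z^ε`, hence its coefficients `f_j` at `ε^j` with `j < n` are solutions of the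
homogeneous equation. -/
noncomputable def frob {n : ℕ} (α : Fin n → ℚ) (k : ℕ) : PowerSeries ℚ :=
  ∏ l ∈ Finset.range k, ((∏ j, (shift l + C (α j))) * ((shift (l + 1))⁻¹) ^ n)

/-- The matrix with the entries `(θ^i f_j)(z)`, where `f_j(z)` is the coefficient of `ε^j` in the series
`∑_k a_k(ε) z^(k + ε)`, `z^ε = ∑_l (log z)^l ε^l / l!`. -/
noncomputable def Y {n : ℕ} (α : Fin n → ℚ) (z : ℝ) : Matrix (Fin n) (Fin n) ℂ :=
  Matrix.of fun i j => ∑ l ∈ Finset.range ((j : ℕ) + 1), ((Real.log z ^ l / l.factorial : ℝ) : ℂ) *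
    ∑' k : ℕ, ((coeff ((j : ℕ) - l) (shift k ^ (i : ℕ) * frob α k) : ℚ) : ℂ) * (z : ℂ) ^ k

/-- the index set of the direct sum of all the `H(α_{i j})` -/
abbrev Index {k : ℕ} {r : Fin k → ℕ} (n : ∀ i, Fin (r i) → ℕ) : Type := Σ x : (Σ i : Fin k, Fin (r i)), Fin (n x.1 x.2)

/-- the block diagonal matrix with the blocks `X_{i j}` -/
noncomputable def diag {k : ℕ} {r : Fin k → ℕ} {n : ∀ i, Fin (r i) → ℕ} (X : ∀ i j, Matrix (Fin (n i j)) (Fin (n i j)) ℂ) :
    Matrix (Index n) (Index n) ℂ := Matrix.blockDiagonal' fun x : (Σ i : Fin k, Fin (r i)) => X x.1 x.2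

/-- A real Hodge structure on `ℂ^I`, without weights: `ℂ^I` is the direct sum of the spaces `H p`, and the complex
conjugate of `H p` is `H (-p)`. For a Hodge structure (of one or of several weights) `H p` is the sum of the spaces
`H^{a, b}` with `a - b = p`. -/
structure IsHodge {I : Type} (H : ℤ → Submodule ℂ (I → ℂ)) : Prop where
  sum : DirectSum.IsInternal H
  conj : ∀ p, ∀ v ∈ H p, (fun a => (starRingEnd ℂ) (v a)) ∈ H (-p)

/-- `H` is the Hodge structure of the fibre `M_t = ⨁ H(α_{i j})_{1 / t_i}` in rational coordinates of the local system: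
`C` is the base change from the Frobenius basis of flat sections to the rational coordinates, and the steps of the Hodge
filtration are spanned by the derivatives of the period vectors, that is by the rows of `diag (Y_{i j}(1 / t_i)) C`: the
row with the number `a < n_{i j}` of the block `(i, j)` is in `F^{n_{i j} - 1 - a}` and has the level `n_{i j} - 1 - 2 a`. -/
structure IsFibre {k : ℕ} {r : Fin k → ℕ} {n : ∀ i, Fin (r i) → ℕ} (α : ∀ i j, Fin (n i j) → ℚ)
    (C : Matrix (Index n) (Index n) ℂ) (t : Fin k → ℕ) (H : ℤ → Submodule ℂ (Index n → ℂ)) : Prop where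
  hodge : IsHodge H
  fil : ∀ p : ℤ, (⨆ q : {q : ℤ // p ≤ q}, H q) =
    Submodule.span ℂ {v | ∃ x : Index n, p ≤ (n x.1.1 x.1.2 : ℤ) - 1 - 2 * (x.2 : ℕ) ∧
      v = (diag (fun i j => Y (α i j) (1 / (t i : ℝ))) * C) x}

/-- The Hodge operator is the multiplication by `p` on `H p`; it is the derivative of the action of the circle. Matrices
act on row vectors from the right. -/
def IsOperator {I : Type} [Fintype I] (H : ℤ → Submodule ℂ (I → ℂ)) (Φ : Matrix I I ℂ) : Prop :=
  ∀ p, ∀ v ∈ H p, Matrix.vecMul v Φ = (p : ℂ) • v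

/-- the complex span of a space of rational matrices -/
def complexSpan {I : Type} (𝔪 : Submodule ℚ (Matrix I I ℚ)) : Submodule ℂ (Matrix I I ℂ) :=
  Submodule.span ℂ ((fun X : Matrix I I ℚ => X.map (algebraMap ℚ ℂ)) '' (𝔪 : Set (Matrix I I ℚ)))

/-- `𝔪` is a rational Lie algebra of matrices whose complex span contains the Hodge operator of `H ⊕ H'`. The Lie algebras
of the Hodge group, of the Mumford–Tate group and of the motivic Galois group are examples. -/
structure IsHodgeLie {I J : Type} [Fintype I] [Fintype J] (H : ℤ → Submodule ℂ (I → ℂ)) (H' : ℤ → Submodule ℂ (J → ℂ))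
    (𝔪 : Submodule ℚ (Matrix (I ⊕ J) (I ⊕ J) ℚ)) : Prop where
  bracket : ∀ X ∈ 𝔪, ∀ Y ∈ 𝔪, X * Y - Y * X ∈ 𝔪
  operator : ∀ Φ Φ', IsOperator H Φ → IsOperator H' Φ' → Matrix.fromBlocks Φ 0 0 Φ' ∈ complexSpan 𝔪

/-- The Lie algebra of the monodromy group of the family of the sums `⨁_{i, j} H(α_{i j})` over `(z_1, …, z_k)` in the
Frobenius bases: the tuples of matrices of trace zero, equal for equal members of a family, and minus the transpose of
each other with respect to the flat pairing `K`, `K_{a b} = (-1)^b` for `a + b = n - 1`, for dual members of a family; in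
particular `A_{i j}` is in the symplectic or orthogonal Lie algebra of `K` if `H(α_{i j})` is self-dual. -/
def monodromy {k : ℕ} {r : Fin k → ℕ} {n : ∀ i, Fin (r i) → ℕ} (α : ∀ i j, Fin (n i j) → ℚ) :
    Set (∀ i j, Matrix (Fin (n i j)) (Fin (n i j)) ℂ) :=
  {A | (∀ i j, (A i j).trace = 0) ∧
    (∀ i j j', (∃ σ : Fin (n i j) ≃ Fin (n i j'), ∀ l, α i j' (σ l) = α i j l) →
      ∀ (a b : Fin (n i j)) (a' b' : Fin (n i j')), (a : ℕ) = a' → (b : ℕ) = b' → A i j' a' b' = A i j a b) ∧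
    ∀ i j j', (∃ σ : Fin (n i j) ≃ Fin (n i j'), ∀ l, α i j' (σ l) + α i j l = 1) →
      ∀ (a b : Fin (n i j)) (a' b' : Fin (n i j')), (a : ℕ) + b' + 1 = n i j → (b : ℕ) + a' + 1 = n i j →
        A i j' a' b' = -(-1) ^ ((a' : ℕ) + b') * A i j a b}

/-- `X` is the direct sum of an element of the monodromy Lie algebra plus the scalars `s_{i j}` on the members, in the
rational coordinates, and of `B`. -/
def HasImage {k : ℕ} {r : Fin k → ℕ} {n : ∀ i, Fin (r i) → ℕ} {J : Type} (α : ∀ i j, Fin (n i j) → ℚ)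
    (C : Matrix (Index n) (Index n) ℂ) (X : Matrix (Index n ⊕ J) (Index n ⊕ J) ℚ) (s : ∀ i, Fin (r i) → ℂ)
    (B : Matrix J J ℂ) : Prop :=
  ∃ A ∈ monodromy α, X.map (algebraMap ℚ ℂ) = Matrix.fromBlocks (C⁻¹ * diag (fun i j => A i j + s i j • 1) * C) 0 0 B

/-- The Mumford–Tate group of `M_t ⊕ W` contains the monodromy group: (1) the complex span of every rational Lie algebra
`𝔪` with the Hodge operator of `M_t ⊕ W` contains the Lie algebra of the monodromy group, acting by zero on `W`; (2) if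
a larger rational space `𝔤` of matrices acts on each `H(α_{i j})` through the monodromy Lie algebra plus scalars, and
all pairs consisting of these scalars and of the action on `W` of the elements of `𝔤` occur also for elements of `𝔪`, then
`𝔤 = 𝔪`. -/
def Generic {k : ℕ} {r : Fin k → ℕ} {n : ∀ i, Fin (r i) → ℕ} {w : ℕ} (α : ∀ i j, Fin (n i j) → ℚ)
    (C : Matrix (Index n) (Index n) ℂ) (W : ℤ → Submodule ℂ (Fin w → ℂ)) (t : Fin k → ℕ) : Prop :=
  ∀ H : ℤ → Submodule ℂ (Index n → ℂ), IsFibre α C t H →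
    ∀ 𝔪 : Submodule ℚ (Matrix (Index n ⊕ Fin w) (Index n ⊕ Fin w) ℚ), IsHodgeLie H W 𝔪 →
      (∀ A ∈ monodromy α, Matrix.fromBlocks (C⁻¹ * diag A * C) 0 0 0 ∈ complexSpan 𝔪) ∧
      ∀ 𝔤 : Submodule ℚ (Matrix (Index n ⊕ Fin w) (Index n ⊕ Fin w) ℚ), 𝔪 ≤ 𝔤 →
        (∀ X ∈ 𝔤, ∃ s B, HasImage α C X s B ∧ ∃ X' ∈ 𝔪, HasImage α C X' s B) → 𝔤 = 𝔪

theorem shift_eq (k : ℕ) : shift k = Pool.Agent.Y119.HY.kx k := rfl

theorem frob_eq {n : ℕ} (α : Fin n → ℚ) (k : ℕ) : frob α k = Pool.Agent.Y119.HY.aq n (QA α) k := by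
  unfold frob Pool.Agent.Y119.HY.aq
  refine Finset.prod_congr rfl fun l _ => ?_
  have h1 : (∏ j, (shift l + C (α j))) = Polynomial.aeval (Pool.Agent.Y119.HY.kx l) (QA α) := by
    unfold QA
    rw [map_prod]
    refine Finset.prod_congr rfl fun j _ => ?_
    rw [map_add, Polynomial.aeval_X, Polynomial.aeval_C]
    rfl
  rw [h1]
  rfl

theorem Y_eq {n : ℕ} (α : Fin n → ℚ) {x : ℝ} (hx : 0 ≤ x) : Y α x = Yx n (QA α) x := by
  ext i j
  unfold Y Yx Pool.Agent.Y119.HY.Yf
  rw [Matrix.of_apply, Matrix.mul_apply]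
  have hE : ∀ c : Fin n, Pool.Agent.Y119.HY.E (Pool.Agent.Y119.HY.cm (Pool.Agent.Y119.HY.Am n))
      (Complex.log (x : ℂ)) c j = ∑ l ∈ Finset.range n,
        if (j : ℕ) = c + l then ((Real.log x ^ l / l.factorial : ℝ) : ℂ) else 0 := by
    intro c
    unfold Pool.Agent.Y119.HY.E
    rw [Matrix.sum_apply]
    refine Finset.sum_congr rfl fun l _ => ?_
    rw [Matrix.smul_apply, ← Pool.Agent.Y119.HY.cm_pow, Pool.Agent.Y119.HY.cm_apply, Pool.Agent.Y119.HY.Am_pow, smul_eq_mul,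
      ← Complex.ofReal_log hx]
    split_ifs
    · push_cast
      ring
    · simp
  simp only [hE, Finset.mul_sum]
  rw [Finset.sum_comm]
  have hsub : Finset.range ((j : ℕ) + 1) ⊆ Finset.range n := by
    intro l hl
    rw [Finset.mem_range] at hl ⊢
    have := j.2
    omega
  refine Finset.sum_subset_zero_on_sdiff hsub (fun l hl => ?_) fun l hl => ?_
  · rw [Finset.mem_sdiff, Finset.mem_range, Finset.mem_range] at hl
    refine Finset.sum_eq_zero fun c _ => ?_
    rw [if_neg (by omega), mul_zero]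
  · rw [Finset.mem_range] at hl
    have hj := j.2
    rw [Finset.sum_eq_single (⟨(j : ℕ) - l, by omega⟩ : Fin n)]
    · rw [if_pos (by simp only; omega), mul_comm]
      congr 1
      unfold Pool.Agent.Y119.HY.Hf Pool.Agent.Y119.HY.ps
      rw [Matrix.of_apply]
      refine tsum_congr fun k => ?_
      show _ = ((Pool.Agent.Y119.HY.hq n (QA α) k i ((j : ℕ) - l) : ℚ) : ℂ) * (x : ℂ) ^ k
      rw [frob_eq, shift_eq]
      rfl
    · intro c _ hc
      rw [if_neg, mul_zero]
      intro h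
      apply hc
      apply Fin.ext
      simp only
      omega
    · intro h
      exact absurd (Finset.mem_univ _) h

theorem diag_eq {k : ℕ} {r : Fin k → ℕ} {n : ∀ i, Fin (r i) → ℕ} (X : ∀ i j, Matrix (Fin (n i j)) (Fin (n i j)) ℂ) :
    diag X = Q207.HG.tot X := rfl

theorem diag_sub {k : ℕ} {r : Fin k → ℕ} {n : ∀ i, Fin (r i) → ℕ} (X X' : ∀ i j, Matrix (Fin (n i j)) (Fin (n i j)) ℂ) :
    diag X - diag X' = diag fun i j => X i j - X' i j := by
  rw [diag_eq, diag_eq, diag_eq]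
  exact Q207.HG.tot_sub X X'

theorem monodromy_sub {k : ℕ} {r : Fin k → ℕ} {n : ∀ i, Fin (r i) → ℕ} {α : ∀ i j, Fin (n i j) → ℚ}
    {A A' : ∀ i j, Matrix (Fin (n i j)) (Fin (n i j)) ℂ} (hA : A ∈ monodromy α) (hA' : A' ∈ monodromy α) :
    (fun i j => A i j - A' i j) ∈ monodromy α := by
  obtain ⟨h1, h2, h3⟩ := hA
  obtain ⟨h1', h2', h3'⟩ := hA'
  refine ⟨fun i j => ?_, fun i j j' hσ a b a' b' ha hb => ?_, fun i j j' hσ a b a' b' ha hb => ?_⟩
  · rw [Matrix.trace_sub, h1, h1', sub_zero]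
  · show A i j' a' b' - A' i j' a' b' = A i j a b - A' i j a b
    rw [h2 i j j' hσ a b a' b' ha hb, h2' i j j' hσ a b a' b' ha hb]
  · show A i j' a' b' - A' i j' a' b' = -(-1) ^ ((a' : ℕ) + b') * (A i j a b - A' i j a b)
    rw [h3 i j j' hσ a b a' b' ha hb, h3' i j j' hσ a b a' b' ha hb]
    ring

theorem rational_mem {I : Type} [Fintype I] [DecidableEq I] {𝔪 : Submodule ℚ (Matrix I I ℚ)} {X : Matrix I I ℚ}
    (hX : X.map (algebraMap ℚ ℂ) ∈ complexSpan 𝔪) : X ∈ 𝔪 := by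
  by_contra hn
  obtain ⟨f, hf1, hf2⟩ := Submodule.exists_le_ker_of_notMem hn
  -- the functional `f` is given by rational coefficients
  have hf : ∀ Z : Matrix I I ℚ, f Z = ∑ a, ∑ b, Z a b * f (Matrix.single a b 1) := by
    intro Z
    conv_lhs => rw [Matrix.matrix_eq_sum_single Z]
    rw [map_sum]
    refine Finset.sum_congr rfl fun a _ => ?_
    rw [map_sum]
    refine Finset.sum_congr rfl fun b _ => ?_
    have h1 : Matrix.single a b (Z a b) = Z a b • Matrix.single a b (1 : ℚ) := by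
      rw [Matrix.smul_single, smul_eq_mul, mul_one]
    rw [h1, map_smul, smul_eq_mul]
  set F : Matrix I I ℂ →ₗ[ℂ] ℂ :=
    { toFun := fun Z => ∑ a, ∑ b, Z a b * ((f (Matrix.single a b 1) : ℚ) : ℂ)
      map_add' := fun Z Z' => by
        simp only [Matrix.add_apply, add_mul, Finset.sum_add_distrib]
      map_smul' := fun c Z => by
        simp only [Matrix.smul_apply, smul_eq_mul, RingHom.id_apply, Finset.mul_sum, mul_assoc] } with hF
  have hFf : ∀ Z : Matrix I I ℚ, F (Z.map (algebraMap ℚ ℂ)) = ((f Z : ℚ) : ℂ) := by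
    intro Z
    rw [hf Z, hF]
    show ∑ a, ∑ b, (Z.map (algebraMap ℚ ℂ)) a b * ((f (Matrix.single a b 1) : ℚ) : ℂ) = _
    push_cast
    rfl
  have h1 : complexSpan 𝔪 ≤ LinearMap.ker F := by
    refine Submodule.span_le.2 ?_
    rintro _ ⟨Z, hZ, rfl⟩
    show F (Z.map (algebraMap ℚ ℂ)) = 0
    rw [hFf]
    have h2 : f Z = 0 := hf2 hZ
    rw [h2]
    norm_num
  have h2 : F (X.map (algebraMap ℚ ℂ)) = 0 := h1 hX
  rw [hFf] at h2
  exact hf1 (by exact_mod_cast h2)

/-- Let `α_{i j l}`, `1 ≤ i ≤ k`, `1 ≤ j ≤ r_i`, `1 ≤ l ≤ n_{i j}`, be rational numbers in `(0, 1)` such that `n_{i j} ≥ 2`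
and the exponents `α_{i j}` of each member are symmetric under `a ↦ 1 - a` or have a sum which is not in `ℤ / 2`;
repetitions and dual members are allowed. For every `w` there are `c > 0` and `C₀` such that for all rational coordinates
(all invertible matrices `C`), all Hodge structures `W` of dimension `w` and every box `∏_i (x_i, x_i + N]` with
`x_i ≥ 1` the following holds for all but `C₀ N^(k-1) ∑_i (1 + N / (x_i + N)^c)` integral points `t` of the box: the
Mumford–Tate group of `M_t ⊕ W`, `M_t = ⨁_{i, j} H(α_{i j})_{1 / t_i}`, contains the monodromy group of the family, in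
the sense of `Generic`. -/
theorem result (k : ℕ) (r : Fin k → ℕ) (n : ∀ i, Fin (r i) → ℕ) (α : ∀ i j, Fin (n i j) → ℚ) (hn : ∀ i j, 2 ≤ n i j)
    (hα : ∀ i j l, 0 < α i j l ∧ α i j l < 1)
    (hs : ∀ i j, (∃ σ : Equiv.Perm (Fin (n i j)), ∀ l, α i j (σ l) + α i j l = 1) ∨
      ∀ a : ℤ, 2 * ∑ l, α i j l ≠ a) (w : ℕ) :
    ∃ c C₀ : ℝ, 0 < c ∧ ∀ C : Matrix (Index n) (Index n) ℂ, IsUnit C.det →
      ∀ W : ℤ → Submodule ℂ (Fin w → ℂ), IsHodge W → ∀ (x : Fin k → ℕ) (N : ℕ), (∀ i, 1 ≤ x i) → 1 ≤ N →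
      (({t : Fin k → ℕ | (∀ i, x i < t i ∧ t i ≤ x i + N) ∧ ¬ Generic α C W t}.ncard : ℕ) : ℝ) ≤
        C₀ * (N : ℝ) ^ (k - 1) * ∑ i, (1 + N / ((x i : ℝ) + N) ^ c) := by
  classical
  have had : ∀ i j, (cls (α i j) = cls fun l => -α i j l) ∨ ∀ a : ℤ, 2 * ∑ l, α i j l ≠ a := by
    intro i j
    rcases hs i j with ⟨σ, h1⟩ | h1
    · refine Or.inl (perm_cls σ fun l => ?_)
      exact ⟨-1, by push_cast; linarith [h1 l]⟩
    · exact Or.inr h1
  obtain ⟨c, C₀, hc, -, hmain⟩ := Q207.HG.countR w hα hn had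
  refine ⟨c, C₀, hc, fun C hC W hW x N hx hN => ?_⟩
  obtain ⟨CW, ΦW, levW, hCW, hCWΦ, hreal, -, hop⟩ := Q207.HG.adapted hW.sum hW.conj
  set S := {t : Fin k → ℕ | (∀ i, x i < t i ∧ t i ≤ x i + N) ∧ ¬ Generic α C W t} with hS
  have hfin : S.Finite := by
    refine (Set.finite_Iic (fun i : Fin k => x i + N)).subset ?_
    intro t ht i
    exact (ht.1 i).2
  rw [Set.ncard_eq_toFinset_card S hfin]
  refine hmain (Q207.HG.fb C CW) x N hx hN _ fun t ht => ?_
  have ht' : t ∈ S := hfin.mem_toFinset.1 ht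
  obtain ⟨hbox, hgen⟩ := ht'
  refine ⟨hbox, fun hG => hgen ?_⟩
  have ht2 : ∀ i, 2 ≤ t i := fun i => by
    have := (hbox i).1
    have := hx i
    omega
  intro H hH 𝔪 h𝔪
  have hD : ∀ i, Nonempty (Q207.HG.Pk (α i)) := fun i => Q207.HG.pk_exists (hα i) (hn i) (had i)
  obtain ⟨D⟩ := Classical.nonempty_pi.2 hD
  have hYY : diag (fun i j => Y (α i j) (1 / (t i : ℝ))) = Q207.HG.tot (Q207.HG.Yv α t) := by
    rw [diag_eq]
    refine Q207.HG.tot_congr fun i j => ?_
    exact Y_eq _ (tpos (ht2 i)).1.le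
  -- the Hodge operator
  obtain ⟨Φ, hΦ⟩ : ∃ Φ, IsOperator H Φ := by
    set b := hH.hodge.sum.collectedBasis fun p => Module.finBasis ℂ (H p) with hb
    set f : (Index n → ℂ) →ₗ[ℂ] (Index n → ℂ) := b.constr ℂ fun x => ((x.1 : ℤ) : ℂ) • b x with hf
    have hfb : ∀ p, ∀ v ∈ H p, f v = (p : ℂ) • v := by
      intro p v hv
      have h1 : v = ∑ x ∈ (b.repr v).support, (b.repr v) x • b x := (b.linearCombination_repr v).symm
      have h2 : ∀ x : (Σ p, Fin (Module.finrank ℂ (H p))), x.1 ≠ p → (b.repr v) x = 0 := by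
        intro x hx
        exact DirectSum.IsInternal.collectedBasis_repr_of_mem_ne hH.hodge.sum _ (fun h => hx h.symm) hv
      conv_lhs => rw [h1]
      conv_rhs => rw [h1]
      rw [map_sum, Finset.smul_sum]
      refine Finset.sum_congr rfl fun x hx => ?_
      rw [map_smul, hf, Module.Basis.constr_basis]
      have hxp : x.1 = p := by
        by_contra h3
        exact (Finsupp.mem_support_iff.1 hx) (h2 x h3)
      rw [hxp, smul_comm]
    refine ⟨(LinearMap.toMatrix' f).transpose, fun p v hv => ?_⟩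
    rw [Matrix.vecMul_transpose, LinearMap.toMatrix'_mulVec]
    exact hfb p v hv
  have h1 := Q207.HG.main_rel (Pool.Agent.Q198.HG.hom) (Pool.Agent.Q198.HG.tr) (Pool.Agent.Q198.HG.der) (Pool.Agent.Q198.HG.span)
    (Pool.Agent.Q198.HG.low) (Pool.Agent.Q198.HG.zero) (Pool.Agent.Q198.HG.part) (Pool.Agent.Q198.HG.trace) (Q249.HG.grd)
    (Pool.Agent.Q195.HG.good) (Pool.Agent.Q195.HG.perf) (Pool.Agent.Q195.HG.form) (Pool.Agent.Q195.HG.conc) D hα hn ht2 hC hCW hCWΦ
    hreal hG hH.hodge.sum.submodule_iSup_eq_top (fun p => by rw [hH.fil p, hYY]; rfl) hH.hodge.conj hΦ (𝔪 := 𝔪) h𝔪.bracket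
    (h𝔪.operator Φ ΦW hΦ hop)
  have h2 : ∀ A ∈ monodromy α, Matrix.fromBlocks (C⁻¹ * diag A * C) 0 0 0 ∈ complexSpan 𝔪 := by
    intro A hA
    obtain ⟨X, hX, hXA⟩ := Q207.HG.monE_Psi Pool.Agent.Q198.HG.der Pool.Agent.Q198.HG.tr Pool.Agent.Q195.HG.conc
      Pool.Agent.Q195.HG.form D hα hn (A := A) (fun i => ⟨fun j => hA.1 i j, fun j j' => hA.2.1 i j j', fun j j' => hA.2.2 i j j'⟩)
    have h3 := h1 X hX
    rw [hXA] at h3
    exact h3
  refine ⟨h2, fun 𝔤 hmg hg => le_antisymm (fun X hX => ?_) hmg⟩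
  obtain ⟨s, B, ⟨A, hA, hXA⟩, X', hX', A', hA', hXA'⟩ := hg X hX
  have h3 : X - X' ∈ 𝔪 := by
    refine rational_mem ?_
    have h4 : (X - X').map (algebraMap ℚ ℂ) = Matrix.fromBlocks (C⁻¹ * diag (fun i j => A i j - A' i j) * C) 0 0 0 := by
      have h5 : (X - X').map (algebraMap ℚ ℂ) = X.map (algebraMap ℚ ℂ) - X'.map (algebraMap ℚ ℂ) := Matrix.map_sub _ (map_sub _) _ _
      rw [h5, hXA, hXA', Q207.HG.fb_sub, sub_self, ← Matrix.sub_mul, ← Matrix.mul_sub, diag_sub]
      have h6 : (fun i j => A i j + s i j • (1 : Matrix (Fin (n i j)) (Fin (n i j)) ℂ) - (A' i j + s i j • 1)) =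
          fun i j => A i j - A' i j := by
        funext i j
        rw [add_sub_add_right_eq_sub]
      rw [h6]
    rw [h4]
    exact h2 _ (monodromy_sub hA hA')
  have h4 : X = (X - X') + X' := by abel
  rw [h4]
  exact Submodule.add_mem _ h3 hX'

end Pool.Agent.Results.MP_b8862a_ag.HypergeometricSumsMumfordTate
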