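import Pool.Agent.Q207.HN.Mg

/-!
# Mumford-Tate groups of almost all members over number fields of families with symplectic monodromy, together with any Hodge
structure

Let `M` be a motive over a number field, with a complex embedding. Its Mumford-Tate group is contained in the connected
component of its motivic Galois group, and the conjecture says that they are equal. What is the Mumford-Tate group of a given
member of a family of motives? For very general members it contains the connected monodromy group (Deligne, André), but the very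
general points are the points outside a countable union of proper closed subsets, which could contain all algebraic points.

**Theorem, part (A).** Let `M_{i,z}`, `1 ≤ i ≤ k`, be parts of the cohomology of families of varieties over the `z`-line, for example the
cohomology in the middle degree of Lefschetz pencils of odd-dimensional hypersurfaces over `ℚ`, such that the monodromy is the full
symplectic group of an integral alternating form `Q_i`, and such that the periods near `z = 0`, where the families may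
degenerate, are polynomials in `log z` and in a connected family `h` of G-functions over `ℚ` (with the conditions of Siegel and
Galochkin, regular singular with rational exponents at `0`; connected: no element of `ℚ(z, h)` outside `ℚ(z)` is algebraic over
`ℚ(z)`). The families may coincide. Let `W` be any Hodge structure, for example the sum of cohomology groups of arbitrary
varieties. For almost all `k`-tuples of algebraic integers `α_i` of degree at most `m`, each in its own number field (all but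
`C T^(-c) |I|^k` of the tuples in `I^k` without coordinates in a finite set, where `I` is the set of the algebraic integers of
degree `≤ m` with conjugates at most `T`), the following holds for the members at `z_i = 1 / α_i`, `M_α = ⨁ M_i`:

1. `Lie Hdg(M_α ⊕ W) = ∏_i sp(Q_i) × Lie Hdg(W)`: the Hodge group (special Mumford-Tate group) is as large as possible. In
   particular the members are independent of each other and of `W`, and all members are Hodge generic.
2. If `𝔪` is a rational Lie algebra of endomorphisms of `M_α ⊕ W` which over `ℂ` contains the Hodge operator, for example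
   the Lie algebra of the Mumford-Tate group, and `𝔤 ⊇ 𝔪` acts on each `M_i` through `sp(Q_i)` plus the scalars, for example the
   Lie algebra of the motivic Galois group (the `Q_i` are motivated), then `𝔤 = 𝔪` if all pairs of scalars and of actions on
   `W` of elements of `𝔤` occur also in `𝔪`: the question for `M_α ⊕ W` is reduced to `W` and to the scalars.

**Part (B), without hypotheses.** All this holds for the families with the periods of the hypergeometric equations
`θ^n f = z ∏_l (θ + β_{i l}) f`, of even order `n = n_i`, with rational `β_{i l}` between `0` and `1` which are symmetric under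
`b ↦ 1 - b`; for example the mirror quintics (`n = 4`, `β = (1/5, 2/5, 3/5, 4/5)`, `M_i = H^3(X_i)`), and the other families of
Calabi-Yau threefolds of this kind.

Here `Lie Hdg(H)` is the smallest rational Lie algebra of endomorphisms which over `ℂ` contains the Hodge operator (it is
the Lie algebra of the Hodge group, because over `ℂ` this group is generated by the images of the conjugates of the Hodge
cocharacter). For mirror quintics, `W = 0` and `k = 1`: the Mumford-Tate group and the motivic Galois group of `H^3(X_ψ)` are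
`GSp_4` for almost all `ψ^5 = α`. (By the uniform open image theorem of Cadoret and Tamagawa the same is true for the
`ℓ`-adic algebraic monodromy groups for all but finitely many `α` of degree `≤ m`, so all equalities of the question hold for
almost all `α`; this last step is not in the Lean.) As far as we know the results on Mumford-Tate groups of all or of almost
all members over number fields of a family were about families of abelian type, where the Mumford-Tate group is known to
contain the connected `ℓ`-adic monodromy group, and, in this project, about the points `z = 1 / t` of hypergeometric families, `t`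
an integer (`HypergeometricSumsMumfordTate` in this row, with a different proof: linear relations over `ℚ` between values at
rational points).

Proof. Let `W^∨` be the dual of `W`. The endomorphisms of `M ⊕ W` are tensors on `M ⊕ W ⊕ W^∨`, and `𝔪` becomes a rational
sub-Hodge structure of `(M ⊕ W ⊕ W^∨)^{⊗ 2}`. Its Plücker vector is a Hodge class in a tensor power, up to a character, and the
statement that it is a Hodge class is a system of relations of bounded degree between periods over a space of bounded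
dimension. For almost all `α` such relations are preserved by the symmetries of the functional relations of the periods
(theorem of Chudnovsky, Bombieri and André on G-functions in the form of the starting files Y916 and of Q207/AF; for (B):
the Frobenius solutions are polynomials in `log z` and in a connected family of G-functions, Q207/HN), which are the full
symplectic groups of the `Q_i`. The orbit of the Hodge class is bounded because of the polarisation, so it is
killed by the `sp(Q_i)` (Q207/GH, Q207/AH), and hence `𝔪` is stable under the `sp(Q_i)`. As `𝔪` contains the Hodge operator,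
which is not zero on `M_i`, it contains an element of `sp(Q_i)` which is not zero, thus all of `sp(Q_i)` (Q207/HN/Mc).
-/

set_option autoImplicit false

open PowerSeries

namespace Pool.Agent.Results.MP_b8862a_ag.MumfordTateOverNumberFields

/-! ### Families of G-functions -/

/-- an integer polynomial as a power series with rational coefficients -/
noncomputable def toQ (P : Polynomial ℤ) : PowerSeries ℚ := ((P.map (Int.castRingHom ℚ) : Polynomial ℚ) : PowerSeries ℚ)

/-- the power series `P(u^e)` -/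
noncomputable def atPow (e : ℕ) (P : Polynomial ℤ) : PowerSeries ℂ :=
  ((Polynomial.expand ℂ e (P.map (Int.castRingHom ℂ)) : Polynomial ℂ) : PowerSeries ℂ)

/-- the matrices `G_s` over `ℤ[x]` with `T^s y^(s) = G_s y` for all solutions `y` of `T y' = A y` -/
noncomputable def iter {r : ℕ} (T : Polynomial ℤ) (A : Fin r → Fin r → Polynomial ℤ) : ℕ → Fin r → Fin r → Polynomial ℤ
  | 0 => fun i j => if i = j then 1 else 0
  | s + 1 => fun i j => T * Polynomial.derivative (iter T A s i j) + ∑ l, iter T A s i l * A l j -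
      (s : Polynomial ℤ) * (Polynomial.derivative T * iter T A s i j)

/-- The system `T y' = A y` has a fundamental matrix of solutions of the form `u^(-M) ∑_n Φ_n(u) (log u)^n` with
`u^e = x` and convergent power series `Φ_n`: the point `0` is an ordinary point or a regular singularity with rational
exponents. -/
def QuasiUnipotent {r : ℕ} (T : Polynomial ℤ) (A : Fin r → Fin r → Polynomial ℤ) : Prop :=
  ∃ (e M : ℕ) (K : ℝ) (Φ : Matrix (Fin r) (Fin r) (Polynomial (PowerSeries ℂ))), 1 ≤ e ∧ Φ.det ≠ 0 ∧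
    (∀ i j n m, ‖coeff m ((Φ i j).coeff n)‖ ≤ K ^ (m + 1)) ∧
    ∀ i j n, atPow e T * (X * PowerSeries.derivative ℂ ((Φ i j).coeff n) +
        ((n : PowerSeries ℂ) + 1) * (Φ i j).coeff (n + 1) - (M : PowerSeries ℂ) * (Φ i j).coeff n) =
      (e : PowerSeries ℂ) * X ^ e * ∑ l, atPow e (A i l) * (Φ l j).coeff n

/-- `h_1, ..., h_r` are G-functions with rational coefficients which solve the differential system `T y' = A y`, with
the conditions of Siegel and Galochkin, and the system is regular with rational exponents at `0`. -/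
structure GFamily {r : ℕ} (T : Polynomial ℤ) (A : Fin r → Fin r → Polynomial ℤ) (h : Fin r → PowerSeries ℚ) : Prop where
  /-- the denominator is not zero -/
  T_ne : T ≠ 0
  /-- the differential equations -/
  ode : ∀ i, toQ T * PowerSeries.derivative ℚ (h i) = ∑ j, toQ (A i j) * h j
  /-- the coefficients have geometric growth -/
  size : ∃ C : ℝ, ∀ i m, |((coeff m (h i) : ℚ) : ℝ)| ≤ C ^ (m + 1)
  /-- the common denominators of the coefficients have geometric growth -/
  den : ∃ C : ℝ, ∀ m : ℕ, ∃ d : ℕ, 0 < d ∧ (d : ℝ) ≤ C ^ (m + 1) ∧ ∀ i, ∀ j ≤ m, ∃ a : ℤ, (d : ℚ) * coeff j (h i) = a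
  /-- Galochkin's condition: the common denominators of the matrices `G_s / s!` have geometric growth -/
  galochkin : ∃ C : ℝ, ∀ m : ℕ, ∃ d : ℕ, 0 < d ∧ (d : ℝ) ≤ C ^ (m + 1) ∧ ∀ s ≤ m, ∀ i j,
    ∃ H : Polynomial ℤ, (d : Polynomial ℤ) * iter T A s i j = (s.factorial : Polynomial ℤ) * H
  /-- the local exponents at `0` are rational and the singularity is regular -/
  regular : QuasiUnipotent T A

section
variable {r n : ℕ}

/-- the quotient `A(h) / B(h)` of formal power series -/
noncomputable def quotient (h : Fin r → PowerSeries ℚ) (A B : MvPolynomial (Fin r) (Polynomial ℚ)) :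
    FractionRing (PowerSeries ℚ) :=
  algebraMap (PowerSeries ℚ) (FractionRing (PowerSeries ℚ)) (MvPolynomial.aeval h A) /
    algebraMap (PowerSeries ℚ) (FractionRing (PowerSeries ℚ)) (MvPolynomial.aeval h B)

/-- `f` is a rational function of `x` -/
def IsRational (f : FractionRing (PowerSeries ℚ)) : Prop :=
  ∃ a b : Polynomial ℚ, b ≠ 0 ∧ f = algebraMap (Polynomial ℚ) (FractionRing (PowerSeries ℚ)) a /
    algebraMap (Polynomial ℚ) (FractionRing (PowerSeries ℚ)) b

/-- The family is connected: every element of the field `ℚ(x, h_1, ..., h_r)` which is algebraic over `ℚ(x)` is in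
`ℚ(x)`; the elements of this field are the quotients `A(h) / B(h)`, where `A`, `B` are polynomials over `ℚ[x]`. -/
def Connected (h : Fin r → PowerSeries ℚ) : Prop := ∀ A B : MvPolynomial (Fin r) (Polynomial ℚ),
  IsAlgebraic (Polynomial ℚ) (quotient h A B) → IsRational (quotient h A B)

/-- the algebraic integers of degree at most `m` all of whose conjugates have absolute value at most `T` -/
def integers (m T : ℕ) : Set ℂ :=
  {α | IsIntegral ℤ α ∧ (minpoly ℚ α).natDegree ≤ m ∧ ∀ z : ℂ, Polynomial.aeval z (minpoly ℚ α) = 0 → ‖z‖ ≤ T}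

/-! ### Period matrices and the groups of their functional relations -/

/-- The period matrix at `x = 1 / α`: the entries are the polynomials `P a b` in a logarithm `ℓ` of `α` and in the
`h_l(1 / α)`. The rows belong to a basis of the rational homology, the columns to a basis of the de Rham cohomology. -/
noncomputable def perMat (h : Fin r → PowerSeries ℚ) (P : Fin n → Fin n → MvPolynomial (Option (Fin r)) ℂ) (α ℓ : ℂ) :
    Matrix (Fin n) (Fin n) ℂ :=
  Matrix.of fun a b => MvPolynomial.eval (fun o : Option (Fin r) => o.elim ℓ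
    fun l => ∑' m : ℕ, ((coeff m (h l) : ℚ) : ℂ) * (1 / α) ^ m) (P a b)

/-- the value at `x = 1 / s` and at the matrix `Z` of a polynomial in the entries of a matrix over `ℂ[x]` -/
noncomputable def relAt (R : MvPolynomial (Fin n × Fin n) (Polynomial ℂ)) (s : ℝ) (Z : Matrix (Fin n) (Fin n) ℂ) : ℂ :=
  MvPolynomial.eval₂ (Polynomial.evalRingHom (1 / (s : ℂ))) (fun v => Z v.1 v.2) R

/-- `g P(x)` satisfies all polynomial relations over `ℂ[x]` which `P(x)` satisfies (for small real `x = 1 / s`, so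
identically). -/
def Preserves (h : Fin r → PowerSeries ℚ) (P : Fin n → Fin n → MvPolynomial (Option (Fin r)) ℂ)
    (g : Matrix (Fin n) (Fin n) ℂ) : Prop :=
  ∀ R : MvPolynomial (Fin n × Fin n) (Polynomial ℂ),
    (∀ᶠ s : ℝ in Filter.atTop, relAt R s (perMat h P s (Real.log s)) = 0) →
    ∀ᶠ s : ℝ in Filter.atTop, relAt R s (g * perMat h P s (Real.log s)) = 0

theorem pres_eq {h : Fin r → PowerSeries ℚ} {P : Fin n → Fin n → MvPolynomial (Option (Fin r)) ℂ}
    {g : Matrix (Fin n) (Fin n) ℂ} : Preserves h P g ↔ Pool.Agent.Y123.GN.Prs h P g := by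
  have h1 : ∀ s : ℝ, perMat h P s (Real.log s) = Pool.Agent.Y120.R.pM h P s := by
    intro s
    ext a b
    exact Q207.AF.pw_real h (fun v : Fin n × Fin n => P v.1 v.2) s (a, b)
  unfold Preserves Pool.Agent.Y123.GN.Prs
  simp only [h1]
  rfl

/-- The rational matrices `γ` such that `γ` and `γ⁻¹` preserve the relations. In particular the monodromy group is contained
in this group, because the relations are preserved by analytic continuation. -/
def IsSymmetry (h : Fin r → PowerSeries ℚ) (P : Fin n → Fin n → MvPolynomial (Option (Fin r)) ℂ)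
    (γ : Matrix (Fin n) (Fin n) ℚ) : Prop :=
  IsUnit γ.det ∧ Preserves h P (γ.map fun x : ℚ => (x : ℂ)) ∧ Preserves h P (γ⁻¹.map fun x : ℚ => (x : ℂ))

/-- an integral matrix as a rational matrix -/
def toRat {m : ℕ} (γ : Matrix (Fin m) (Fin m) ℤ) : Matrix (Fin m) (Fin m) ℚ := γ.map fun x : ℤ => (x : ℚ)

/-- The integral form `Q` is nondegenerate and alternating, and all rational isometries of `Q` are symmetries: the Zariski
closure of the monodromy group contains the symplectic group of `Q`, for example for Lefschetz pencils of odd-dimensional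
hypersurfaces. -/
structure FullSymplectic (h : Fin r → PowerSeries ℚ) (P : Fin n → Fin n → MvPolynomial (Option (Fin r)) ℂ)
    (Q : Matrix (Fin n) (Fin n) ℤ) : Prop where
  pos : 0 < n
  det : Q.det ≠ 0
  form : Q.transpose = -Q
  sym : ∀ γ : Matrix (Fin n) (Fin n) ℚ, γ.transpose * toRat Q * γ = toRat Q → IsSymmetry h P γ

end

/-! ### Hypergeometric periods -/

/-- the power series `j + ε` in the variable `ε` -/
noncomputable def shift (j : ℕ) : PowerSeries ℚ := PowerSeries.C (j : ℚ) + PowerSeries.X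

/-- `a_j(ε) = ∏_{l < j} ∏_i (l + ε + β_i) / (l + 1 + ε)^n`. The series `∑_j a_j(ε) z^(j + ε)` solves the equation
`(θ^n - z ∏_i (θ + β_i)) f = ε^n z^ε`, `θ = z d/dz`, hence its coefficients `f_a` at `ε^a` with `a < n` are solutions of the
homogeneous equation. -/
noncomputable def frob {m : ℕ} (β : Fin m → ℚ) (j : ℕ) : PowerSeries ℚ :=
  ∏ l ∈ Finset.range j, ((∏ i, (shift l + PowerSeries.C (β i))) * ((shift (l + 1))⁻¹) ^ m)

/-- The matrix with the entries `(θ^b f_a)(z)`, where `f_a(z)` is the coefficient of `ε^a` in the series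
`∑_j a_j(ε) z^(j + ε)`, `z^ε = ∑_l L^l ε^l / l!`, and `L` is a logarithm of `z`. -/
noncomputable def solutions {m : ℕ} (β : Fin m → ℚ) (z L : ℂ) : Matrix (Fin m) (Fin m) ℂ :=
  Matrix.of fun b a => ∑ l ∈ Finset.range ((a : ℕ) + 1), L ^ l / (l.factorial : ℂ) *
    ∑' j : ℕ, ((coeff ((a : ℕ) - l) (shift j ^ (b : ℕ) * frob β j) : ℚ) : ℂ) * z ^ j

/-- the flat pairing of the solutions in the Frobenius basis -/
noncomputable def pairing (m : ℕ) : Matrix (Fin m) (Fin m) ℂ :=
  Matrix.of fun a b => if (a : ℕ) + b + 1 = m then (-1) ^ (b : ℕ) else 0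

/-- The equation `θ^m f = z ∏_i (θ + β_i) f` has even order, rational exponents `β_i` between `0` and `1`, and is self-dual:
the exponents are symmetric under `a ↦ 1 - a`. For example `β = (1/5, 2/5, 3/5, 4/5)` for mirror quintics. -/
structure Symplectic {m : ℕ} (β : Fin m → ℚ) : Prop where
  two : 2 ≤ m
  even : Even m
  pos : ∀ l, 0 < β l ∧ β l < 1
  dual : ∃ σ : Equiv.Perm (Fin m), ∀ l, β (σ l) + β l = 1

/-- `Ω` is the base change from the Frobenius basis to a basis of the rational local system in which the integral matrix `Q`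
is, up to a factor, the flat pairing. -/
def IsBaseChange {m : ℕ} (Ω : Matrix (Fin m) (Fin m) ℂ) (Q : Matrix (Fin m) (Fin m) ℤ) : Prop :=
  IsUnit Ω.det ∧ ∃ γ : ℂ, γ ≠ 0 ∧ Ω.transpose * (Q.map fun x : ℤ => (x : ℂ)) * Ω = γ • pairing m

/-! ### Hodge structures and the Lie algebra of the Hodge group -/

/-- A real Hodge structure on `ℂ^I`, without weights: `ℂ^I` is the direct sum of the spaces `H p`, and the complex
conjugate of `H p` is `H (-p)`. For a Hodge structure (of one or of several weights) `H p` is the sum of the spaces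
`H^{a, b}` with `a - b = p`. -/
structure IsHodge {I : Type} (H : ℤ → Submodule ℂ (I → ℂ)) : Prop where
  sum : DirectSum.IsInternal H
  conj : ∀ p, ∀ v ∈ H p, (fun a => (starRingEnd ℂ) (v a)) ∈ H (-p)

/-- `H` is the Hodge structure with the period matrix `Z` (rows: Betti, columns: de Rham): the steps of the Hodge filtration
are spanned by the columns `x` with level `lev x ≥ p`; the level of a de Rham class of degree `w` in `F^a`, not in
`F^(a+1)`, is `a - (w - a)`. -/
structure IsFibre {I : Type} (lev : I → ℤ) (Z : Matrix I I ℂ) (H : ℤ → Submodule ℂ (I → ℂ)) : Prop where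
  hodge : IsHodge H
  fil : ∀ p : ℤ, (⨆ q : {q : ℤ // p ≤ q}, H q) = Submodule.span ℂ {v | ∃ x, p ≤ lev x ∧ v = Z.transpose x}

/-- The Hodge operator is the multiplication by `p` on `H p`; it is the derivative of the action of the circle. Matrices
act on row vectors from the right. -/
def IsOperator {I : Type} [Fintype I] (H : ℤ → Submodule ℂ (I → ℂ)) (Φ : Matrix I I ℂ) : Prop :=
  ∀ p, ∀ v ∈ H p, Matrix.vecMul v Φ = (p : ℂ) • v

/-- The direct sum of two Hodge structures. -/
def oplus {I J : Type} (H : ℤ → Submodule ℂ (I → ℂ)) (H' : ℤ → Submodule ℂ (J → ℂ)) (p : ℤ) : Submodule ℂ (I ⊕ J → ℂ) :=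
  (H p).comap (LinearMap.funLeft ℂ ℂ Sum.inl) ⊓ (H' p).comap (LinearMap.funLeft ℂ ℂ Sum.inr)

/-- The sesquilinear form `v S conj(w)` polarises the Hodge structure, for example `S` is the real matrix of a polarisation:
the spaces `H p` are orthogonal, and the form `i^p v S conj(v)` is real and positive on `H p`, `v ≠ 0`. -/
structure Polarises {I : Type} [Fintype I] (S : Matrix I I ℂ) (H : ℤ → Submodule ℂ (I → ℂ)) : Prop where
  orth : ∀ p q, p ≠ q → ∀ v ∈ H p, ∀ w ∈ H q, dotProduct v (S.mulVec (star w)) = 0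
  pos : ∀ p, ∀ v ∈ H p, v ≠ 0 → ∃ x : ℝ, 0 < x ∧ Complex.I ^ p * dotProduct v (S.mulVec (star v)) = x

/-- the complex span of a space of rational matrices -/
def complexSpan {I : Type} (𝔪 : Submodule ℚ (Matrix I I ℚ)) : Submodule ℂ (Matrix I I ℂ) :=
  Submodule.span ℂ ((fun X : Matrix I I ℚ => X.map (algebraMap ℚ ℂ)) '' (𝔪 : Set (Matrix I I ℚ)))

/-- `𝔪` is a rational Lie algebra of matrices whose complex span contains the Hodge operator of `H`. The Lie algebras of the
Hodge group, of the Mumford–Tate group and of the motivic Galois group are examples. -/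
structure IsHodgeLie {I : Type} [Fintype I] (H : ℤ → Submodule ℂ (I → ℂ)) (𝔪 : Submodule ℚ (Matrix I I ℚ)) : Prop where
  bracket : ∀ X ∈ 𝔪, ∀ Y ∈ 𝔪, X * Y - Y * X ∈ 𝔪
  operator : ∀ Φ, IsOperator H Φ → Φ ∈ complexSpan 𝔪

/-- the Lie algebra of the Hodge group: the smallest rational Lie algebra whose complex span contains the Hodge operator -/
def hodgeLie {I : Type} [Fintype I] (H : ℤ → Submodule ℂ (I → ℂ)) : Submodule ℚ (Matrix I I ℚ) := sInf {𝔪 | IsHodgeLie H 𝔪}

section
variable {k : ℕ} {n : Fin k → ℕ}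

/-- the index set of `M = ⨁ M_i` -/
abbrev Index (n : Fin k → ℕ) : Type := Σ i : Fin k, Fin (n i)

/-- `A_i` is in the symplectic Lie algebra of `Q_i` for all `i`: the forms `v Q_i w^T` on the row vectors are invariant. -/
def InSymplectic (Q : ∀ i, Matrix (Fin (n i)) (Fin (n i)) ℤ) (A : ∀ i, Matrix (Fin (n i)) (Fin (n i)) ℚ) : Prop :=
  ∀ i, A i * (Q i).map (fun x : ℤ => (x : ℚ)) + (Q i).map (fun x : ℤ => (x : ℚ)) * (A i).transpose = 0

/-- `X` acts on each `M_i` as an element of the symplectic Lie algebra plus the scalar `s_i`, and on `W` as `B`. -/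
def ActsBy {w : ℕ} (Q : ∀ i, Matrix (Fin (n i)) (Fin (n i)) ℤ) (X : Matrix (Index n ⊕ Fin w) (Index n ⊕ Fin w) ℚ) (s : Fin k → ℚ)
    (B : Matrix (Fin w) (Fin w) ℚ) : Prop :=
  ∃ A, InSymplectic Q A ∧ X = Matrix.fromBlocks (Matrix.blockDiagonal' fun i => A i + s i • 1) 0 0 B

/-- The conclusion for a Hodge structure `H` on `M = ⨁ M_i` with the forms `Q_i`, and any Hodge structure `W`: (1) the Lie
algebra of the Hodge group of `H ⊕ W` is the product of the symplectic Lie algebras of the `Q_i` and of the Lie algebra of the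
Hodge group of `W`; (2) if `𝔪` is a rational Lie algebra with the Hodge operator, `𝔤 ⊇ 𝔪` acts on each `M_i` through the
symplectic Lie algebra plus scalars, and all pairs of the scalars and of the action on `W` of the elements of `𝔤` occur also
for elements of `𝔪`, then `𝔤 = 𝔪`. -/
def BigHodgeGroup {w : ℕ} (Q : ∀ i, Matrix (Fin (n i)) (Fin (n i)) ℤ) (W : ℤ → Submodule ℂ (Fin w → ℂ))
    (H : ℤ → Submodule ℂ (Index n → ℂ)) : Prop :=
  (∀ X : Matrix (Index n ⊕ Fin w) (Index n ⊕ Fin w) ℚ, X ∈ hodgeLie (oplus H W) ↔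
    ∃ A B, InSymplectic Q A ∧ B ∈ hodgeLie W ∧ X = Matrix.fromBlocks (Matrix.blockDiagonal' A) 0 0 B) ∧
  ∀ 𝔪 𝔤 : Submodule ℚ (Matrix (Index n ⊕ Fin w) (Index n ⊕ Fin w) ℚ), IsHodgeLie (oplus H W) 𝔪 → 𝔪 ≤ 𝔤 →
    (∀ X ∈ 𝔤, ∃ s B, ActsBy Q X s B ∧ ∃ X' ∈ 𝔪, ActsBy Q X' s B) → 𝔤 = 𝔪

/-- The conclusion for one tuple `α` for families with the periods `P_i`: for all logarithms `ℓ_i` of the `α_i`, all levels, all
Hodge structures `H` with the period matrix `⨁ P_i(1 / α_i)` and all `Q_i` such that the monodromy is the full symplectic group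
of `Q_i` and `H` is polarised by `⨁ c_i Q_i` the Hodge group is as large as possible. -/
def FamiliesGeneric {r w : ℕ} (h : Fin r → PowerSeries ℚ)
    (P : ∀ i, Fin (n i) → Fin (n i) → MvPolynomial (Option (Fin r)) ℂ) (W : ℤ → Submodule ℂ (Fin w → ℂ)) (α : Fin k → ℂ) : Prop :=
  ∀ ℓ : Fin k → ℂ, (∀ i, Complex.exp (ℓ i) = α i) →
  ∀ (lev : Index n → ℤ) (H : ℤ → Submodule ℂ (Index n → ℂ)),
    IsFibre lev (Matrix.blockDiagonal' fun i => perMat h (P i) (α i) (ℓ i)) H →
  ∀ Q : ∀ i, Matrix (Fin (n i)) (Fin (n i)) ℤ, (∀ i, FullSymplectic h (P i) (Q i)) →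
  ∀ c : Fin k → ℂ, (∀ i, c i ≠ 0) → Polarises (Matrix.blockDiagonal' fun i => c i • (Q i).map fun x : ℤ => (x : ℂ)) H →
    BigHodgeGroup Q W H

/-- The conclusion for one tuple `α` for the hypergeometric families: all `|α_i| > 1` (where the series converge), and for all
logarithms `ℓ_i` of the `α_i`, all levels and all Hodge structures `H` with the period matrix `⨁ Ω_i (θ^b f_a)^T(1 / α_i)`
polarised by `⨁ c_i Q_i` the Hodge group is as large as possible. -/
def HypergeometricGeneric {w : ℕ} (β : ∀ i, Fin (n i) → ℚ) (Ω : ∀ i, Matrix (Fin (n i)) (Fin (n i)) ℂ)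
    (Q : ∀ i, Matrix (Fin (n i)) (Fin (n i)) ℤ) (W : ℤ → Submodule ℂ (Fin w → ℂ)) (α : Fin k → ℂ) : Prop :=
  (∀ i, 1 < ‖α i‖) ∧ ∀ ℓ : Fin k → ℂ, (∀ i, Complex.exp (ℓ i) = α i) →
  ∀ (lev : Index n → ℤ) (H : ℤ → Submodule ℂ (Index n → ℂ)),
    IsFibre lev (Matrix.blockDiagonal' fun i => Ω i * (solutions (β i) (1 / α i) (-ℓ i)).transpose) H →
  ∀ c : Fin k → ℂ, (∀ i, c i ≠ 0) → Polarises (Matrix.blockDiagonal' fun i => c i • (Q i).map fun x : ℤ => (x : ℂ)) H →
    BigHodgeGroup Q W H

end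

theorem iter_eq {r : ℕ} (T : Polynomial ℤ) (A : Fin r → Fin r → Polynomial ℤ) (s : ℕ) :
    iter T A s = Pool.Agent.Y120.GH.itm T A s := by
  induction s with
  | zero => rfl
  | succ s ih =>
    funext i j
    rw [iter, Pool.Agent.Y120.GH.itm, ih]

theorem qu_eq {r : ℕ} {T : Polynomial ℤ} {A : Fin r → Fin r → Polynomial ℤ} (h : QuasiUnipotent T A) :
    Pool.Agent.Y120.GH.QU0 T A := by
  obtain ⟨e, M, K, Φ, he, hdet, hc, heq⟩ := h
  have he0 : e ≠ 0 := by omega
  refine ⟨e, he0, M, K, Φ, hc, fun i j n => ?_, hdet⟩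
  have h1 := heq i j n
  simp only [atPow] at h1
  rw [Pool.Agent.Y120.GH.expand_poly he0]
  simp only [Pool.Agent.Y120.GH.expand_poly he0]
  exact h1

theorem GFamily.fam {r : ℕ} {T : Polynomial ℤ} {A : Fin r → Fin r → Polynomial ℤ} {h : Fin r → PowerSeries ℚ}
    (hG : GFamily T A h) : Pool.Agent.Y916.Af.GFam T A h := by
  refine ⟨hG.T_ne, hG.ode, hG.size, hG.den, ?_, qu_eq hG.regular⟩
  obtain ⟨C, hC⟩ := hG.galochkin
  refine ⟨C, fun m => ?_⟩
  obtain ⟨d, h1, h2, h3⟩ := hC m
  refine ⟨d, h1, h2, fun s hs i' j' => ?_⟩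
  rw [← iter_eq]
  exact h3 s hs i' j'

theorem sym_of {r n : ℕ} {h : Fin r → PowerSeries ℚ} {P : Fin n → Fin n → MvPolynomial (Option (Fin r)) ℂ}
    {γ : Matrix (Fin n) (Fin n) ℚ} (hγ : IsSymmetry h P γ) :
    ∃ g ∈ Pool.Agent.Y123.GN.Gs h P, (g : Matrix (Fin n) (Fin n) ℂ) = Q207.HG.cmx γ := by
  obtain ⟨h1, h2, h3⟩ := hγ
  have hmul : ∀ X Y : Matrix (Fin n) (Fin n) ℚ, Q207.HG.cmx (X * Y) = Q207.HG.cmx X * Q207.HG.cmx Y := fun X Y => Matrix.map_mul
  have hone : Q207.HG.cmx (1 : Matrix (Fin n) (Fin n) ℚ) = 1 := Matrix.map_one _ (map_zero _) (map_one _)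
  exact ⟨⟨Q207.HG.cmx γ, Q207.HG.cmx γ⁻¹, by rw [← hmul, Matrix.mul_nonsing_inv _ h1, hone],
    by rw [← hmul, Matrix.nonsing_inv_mul _ h1, hone]⟩, ⟨pres_eq.1 h2, pres_eq.1 h3⟩, rfl⟩

theorem frob_eq {m : ℕ} (β : Fin m → ℚ) (j : ℕ) : frob β j = Pool.Agent.Y119.HY.aq m (Q207.HM.QA β) j := by
  unfold frob Pool.Agent.Y119.HY.aq
  refine Finset.prod_congr rfl fun l _ => ?_
  have h1 : (∏ i, (shift l + PowerSeries.C (β i))) = Polynomial.aeval (Pool.Agent.Y119.HY.kx l) (Q207.HM.QA β) := by
    unfold Q207.HM.QA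
    rw [map_prod]
    refine Finset.prod_congr rfl fun j _ => ?_
    rw [map_add, Polynomial.aeval_X, Polynomial.aeval_C]
    rfl
  rw [h1]
  rfl

theorem solutions_eq {m : ℕ} (β : Fin m → ℚ) (z L : ℂ) : solutions β z L = Q207.HN.YL β z L := by
  ext b a
  rw [Q207.HN.YL_apply]
  unfold solutions
  rw [Matrix.of_apply]
  refine Finset.sum_congr rfl fun l _ => ?_
  congr 1
  refine tsum_congr fun j => ?_
  rw [frob_eq]
  rfl

/-- the operator is unique -/
theorem operator_unique {I : Type} [Fintype I] [DecidableEq I] {F : ℤ → Submodule ℂ (I → ℂ)} (hF : (⨆ p, F p) = ⊤)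
    {Φ₁ Φ₂ : Matrix I I ℂ} (h1 : IsOperator F Φ₁) (h2 : IsOperator F Φ₂) : Φ₁ = Φ₂ := by
  ext a b
  have h8 : ∀ x : I → ℂ, Matrix.vecMul x Φ₁ = Matrix.vecMul x Φ₂ := by
    intro x
    have hx : x ∈ (⨆ p, F p) := by rw [hF]; exact Submodule.mem_top
    induction hx using Submodule.iSup_induction' with
    | mem p v hv =>
      rw [h1 p v hv]
      exact (h2 p v hv).symm
    | zero => rw [Matrix.zero_vecMul, Matrix.zero_vecMul]
    | add v w _ _ h1 h2 => rw [Matrix.add_vecMul, Matrix.add_vecMul, h1, h2]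
  have h9 := congrFun (h8 (Pi.single a 1)) b
  rw [Matrix.single_one_vecMul, Matrix.single_one_vecMul] at h9
  exact h9

/-- one tuple -/
theorem big_of {k w : ℕ} {n : Fin k → ℕ} {Q : ∀ i, Matrix (Fin (n i)) (Fin (n i)) ℤ}
    (hsk : ∀ i, (Q i).transpose = -Q i ∧ (Q i).det ≠ 0) {W : ℤ → Submodule ℂ (Fin w → ℂ)} (hW : IsHodge W)
    {ΦW : Matrix (Fin w) (Fin w) ℂ} (hΦW : IsOperator W ΦW) {H : ℤ → Submodule ℂ (Index n → ℂ)} (hH : IsHodge H)
    {ΦH : Matrix (Index n) (Index n) ℂ} (hΦH : IsOperator H ΦH) {φ : ∀ i, Matrix (Fin (n i)) (Fin (n i)) ℂ}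
    (hφ1 : ΦH = Matrix.blockDiagonal' φ) (hφ2 : ∀ i, φ i * Q207.GH.ic (Q i) + Q207.GH.ic (Q i) * (φ i).transpose = 0)
    (hkey : ∀ 𝔪 : Submodule ℚ (Matrix (Index n ⊕ Fin w) (Index n ⊕ Fin w) ℚ), (∀ X ∈ 𝔪, ∀ Y ∈ 𝔪, X * Y - Y * X ∈ 𝔪) →
      Matrix.fromBlocks ΦH 0 0 ΦW ∈ Q207.HN.CS 𝔪 → ∀ X : ∀ i, Matrix (Fin (n i)) (Fin (n i)) ℂ,
      (∀ i, (X i).transpose * Q207.GH.ic (Q i) + Q207.GH.ic (Q i) * X i = 0) → Q207.HN.Eb w n X ∈ Q207.HN.CS 𝔪) :
    BigHodgeGroup Q W H := by
  classical
  have hop : IsOperator (oplus H W) (Matrix.fromBlocks ΦH 0 0 ΦW) := Q207.GH.op_oper hΦH hΦW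
  have huni : ∀ Φ, IsOperator (oplus H W) Φ → Φ = Matrix.fromBlocks ΦH 0 0 ΦW := fun Φ h =>
    operator_unique (Q207.GH.op_int hH.sum hW.sum).submodule_iSup_eq_top h hop
  have huniW : ∀ Φ, IsOperator W Φ → Φ = ΦW := fun Φ h => operator_unique hW.sum.submodule_iSup_eq_top h hΦW
  -- the symplectic Lie algebras are contained in all Lie algebras with the operator
  have hC : ∀ 𝔪 : Submodule ℚ (Matrix (Index n ⊕ Fin w) (Index n ⊕ Fin w) ℚ), IsHodgeLie (oplus H W) 𝔪 →
      ∀ X : ∀ i, Matrix (Fin (n i)) (Fin (n i)) ℂ, (∀ i, X i * Q207.GH.ic (Q i) + Q207.GH.ic (Q i) * (X i).transpose = 0) →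
      Matrix.fromBlocks (Matrix.blockDiagonal' X) 0 0 0 ∈ Q207.HN.CS 𝔪 := by
    intro 𝔪 h𝔪 X hX
    have h1 := hkey 𝔪 h𝔪.bracket (h𝔪.operator _ hop) (fun i => (X i).transpose) fun i => by
      rw [Matrix.transpose_transpose]
      exact hX i
    rw [Q207.HN.Eb_eq, Matrix.blockDiagonal'_transpose] at h1
    simp only [Matrix.transpose_transpose] at h1
    exact h1
  have hR : ∀ 𝔪 : Submodule ℚ (Matrix (Index n ⊕ Fin w) (Index n ⊕ Fin w) ℚ), IsHodgeLie (oplus H W) 𝔪 →
      ∀ A : ∀ i, Matrix (Fin (n i)) (Fin (n i)) ℚ, InSymplectic Q A → Matrix.fromBlocks (Matrix.blockDiagonal' A) 0 0 0 ∈ 𝔪 := by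
    intro 𝔪 h𝔪 A hA
    refine Q207.HN.rat_mem ?_
    have h1 : (Matrix.fromBlocks (Matrix.blockDiagonal' A) 0 0 (0 : Matrix (Fin w) (Fin w) ℚ)).map (algebraMap ℚ ℂ) =
        Matrix.fromBlocks (Matrix.blockDiagonal' fun i => (A i).map (algebraMap ℚ ℂ)) 0 0 0 := by
      rw [Matrix.fromBlocks_map, Matrix.blockDiagonal'_map _ _ (map_zero _)]
      congr 1
      · exact Matrix.map_zero _ (map_zero _)
      · exact Matrix.map_zero _ (map_zero _)
      · exact Matrix.map_zero _ (map_zero _)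
    rw [h1]
    refine hC 𝔪 h𝔪 _ fun i => ?_
    have h2 := congrArg (fun M : Matrix (Fin (n i)) (Fin (n i)) ℚ => M.map (algebraMap ℚ ℂ)) (hA i)
    rw [Matrix.map_add _ (map_add (algebraMap ℚ ℂ)), Matrix.map_mul, Matrix.map_mul, Matrix.map_zero _ (map_zero _)] at h2
    have h3 : ((Q i).map fun x : ℤ => (x : ℚ)).map (algebraMap ℚ ℂ) = Q207.GH.ic (Q i) := Q207.GH.ic_ir (Q i)
    rw [h3] at h2
    exact h2
  -- a Lie algebra for `W` gives one for the sum
  have hpr : ∀ 𝔫 : Submodule ℚ (Matrix (Fin w) (Fin w) ℚ), IsHodgeLie W 𝔫 → IsHodgeLie (oplus H W) (Q207.HN.pr Q 𝔫) := by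
    intro 𝔫 h𝔫
    refine ⟨Q207.HN.pr_br h𝔫.bracket, fun Φ hΦ => ?_⟩
    rw [huni Φ hΦ, hφ1]
    exact Q207.HN.pr_op (fun i => (hsk i).1) (fun i => (hsk i).2) hφ2 (h𝔫.operator ΦW hΦW)
  -- and conversely
  have hco : ∀ 𝔪 : Submodule ℚ (Matrix (Index n ⊕ Fin w) (Index n ⊕ Fin w) ℚ), IsHodgeLie (oplus H W) 𝔪 →
      IsHodgeLie W (𝔪.comap (Q207.HN.jW ℚ (Index n) w)) := by
    intro 𝔪 h𝔪
    refine ⟨fun X hX Y hY => ?_, fun Φ hΦ => ?_⟩
    · have h1 := h𝔪.bracket _ hX _ hY
      have h2 : Q207.HN.jW ℚ (Index n) w X * Q207.HN.jW ℚ (Index n) w Y - Q207.HN.jW ℚ (Index n) w Y * Q207.HN.jW ℚ (Index n) w X =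
          Q207.HN.jW ℚ (Index n) w (X * Y - Y * X) := by
        rw [map_sub]
        congr 1
        · show Matrix.fromBlocks _ _ _ _ * Matrix.fromBlocks _ _ _ _ = Matrix.fromBlocks _ _ _ _
          rw [Matrix.fromBlocks_multiply]
          simp
        · show Matrix.fromBlocks _ _ _ _ * Matrix.fromBlocks _ _ _ _ = Matrix.fromBlocks _ _ _ _
          rw [Matrix.fromBlocks_multiply]
          simp
      rw [h2] at h1
      exact h1
    · rw [huniW Φ hΦ]
      refine Q207.HN.part_W ?_
      have h1 := h𝔪.operator _ hop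
      have h2 := hC 𝔪 h𝔪 φ hφ2
      have h3 := Submodule.sub_mem _ h1 h2
      have h4 : Matrix.fromBlocks ΦH 0 0 ΦW - Matrix.fromBlocks (Matrix.blockDiagonal' φ) 0 0 0 =
          (Matrix.fromBlocks 0 0 0 ΦW : Matrix (Index n ⊕ Fin w) (Index n ⊕ Fin w) ℂ) := by
        rw [hφ1, sub_eq_add_neg, Matrix.fromBlocks_neg, Matrix.fromBlocks_add]
        simp
      rw [h4] at h3
      exact h3
  refine ⟨fun X => ⟨fun hX => ?_, ?_⟩, fun 𝔪 𝔤 h𝔪 hle hg => le_antisymm (fun X hX => ?_) hle⟩
  · have htop : IsHodgeLie W ⊤ := ⟨fun _ _ _ _ => Submodule.mem_top, fun Φ _ => Q207.HN.CS_top Φ⟩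
    obtain ⟨A, B, hA, -, rfl⟩ := Submodule.mem_sInf.1 hX _ (hpr ⊤ htop)
    refine ⟨A, B, hA, Submodule.mem_sInf.2 fun 𝔫 h𝔫 => ?_, rfl⟩
    obtain ⟨A', B', -, hB', h1⟩ := Submodule.mem_sInf.1 hX _ (hpr 𝔫 h𝔫)
    have h2 : B = B' := (Matrix.fromBlocks_inj.1 h1).2.2.2
    rw [h2]
    exact hB'
  · rintro ⟨A, B, hA, hB, rfl⟩
    refine Submodule.mem_sInf.2 fun 𝔪 h𝔪 => ?_
    have h1 : Matrix.fromBlocks (Matrix.blockDiagonal' A) 0 0 B =
        Matrix.fromBlocks (Matrix.blockDiagonal' A) 0 0 0 + Q207.HN.jW ℚ (Index n) w B := by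
      show _ = _ + Matrix.fromBlocks _ _ _ _
      rw [Matrix.fromBlocks_add]
      simp
    rw [h1]
    exact Submodule.add_mem _ (hR 𝔪 h𝔪 A hA) (Submodule.mem_sInf.1 hB _ (hco 𝔪 h𝔪))
  · obtain ⟨s, B, ⟨A, hA, hXA⟩, X', hX', A', hA', hXA'⟩ := hg X hX
    have h3 : X - X' ∈ 𝔪 := by
      have h4 : X - X' = Matrix.fromBlocks (Matrix.blockDiagonal' fun i => A i - A' i) 0 0 0 := by
        rw [hXA, hXA', sub_eq_add_neg, Matrix.fromBlocks_neg, Matrix.fromBlocks_add, ← sub_eq_add_neg,
          ← Matrix.blockDiagonal'_sub]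
        have h6 : (fun i => A i + s i • (1 : Matrix (Fin (n i)) (Fin (n i)) ℚ)) - (fun i => A' i + s i • 1) =
            fun i => A i - A' i := by
          funext i
          rw [Pi.sub_apply, add_sub_add_right_eq_sub]
        rw [h6]
        simp
      rw [h4]
      refine hR 𝔪 h𝔪 _ fun i => ?_
      have h5 : (A i - A' i) * (Q i).map (fun x : ℤ => (x : ℚ)) + (Q i).map (fun x : ℤ => (x : ℚ)) * (A i - A' i).transpose =
          (A i * (Q i).map (fun x : ℤ => (x : ℚ)) + (Q i).map (fun x : ℤ => (x : ℚ)) * (A i).transpose) -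
          (A' i * (Q i).map (fun x : ℤ => (x : ℚ)) + (Q i).map (fun x : ℤ => (x : ℚ)) * (A' i).transpose) := by
        rw [Matrix.transpose_sub, Matrix.sub_mul, Matrix.mul_sub]
        abel
      show (A i - A' i) * _ + _ * (A i - A' i).transpose = 0
      rw [h5, hA i, hA' i, sub_zero]
    have h4 : X = (X - X') + X' := by abel
    rw [h4]
    exact Submodule.add_mem _ h3 hX'

/-- the general part -/
theorem general (k e m r w : ℕ) (hm : 1 ≤ m) (n : Fin k → ℕ) (T₀ : Polynomial ℤ) (A : Fin r → Fin r → Polynomial ℤ)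
    (h : Fin r → PowerSeries ℚ) (hG : GFamily T₀ A h) (hc : Connected h) :
    ∃ c C : ℝ, 0 < c ∧ ∀ P : ∀ i, Fin (n i) → Fin (n i) → MvPolynomial (Option (Fin r)) ℂ,
      (∀ i x y, (P i x y).totalDegree ≤ e) → ∃ B : Set ℂ, B.Finite ∧
      ∀ W : ℤ → Submodule ℂ (Fin w → ℂ), IsHodge W → ∀ T : ℕ, 1 ≤ T →
      ({α : Fin k → ℂ | (∀ i, α i ∈ integers m T ∧ α i ∉ B) ∧ ¬ FamiliesGeneric h P W α}.ncard : ℝ) ≤
        C * (T : ℝ) ^ (-c) * ((integers m T).ncard : ℝ) ^ k := by
  classical
  obtain ⟨c, hc0, C, hC0, hmain⟩ := Q207.HN.mt_gen (n := n) hG.fam hc m hm e w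
  refine ⟨c, C, hc0, fun P hP => ?_⟩
  obtain ⟨B, hBf, hB⟩ := hmain P hP
  refine ⟨B, hBf, fun W hW T hT => ?_⟩
  obtain ⟨CW, ΦW, levW, hCW, hCWΦ, hreal, -, hop⟩ := Q207.HG.adapted hW.sum hW.conj
  refine le_trans ?_ (hB CW ΦW levW hCW (fun a => ?_) hreal T hT)
  · refine Nat.cast_le.2 (Set.ncard_le_ncard ?_ ?_)
    · rintro α ⟨h1, h2⟩
      refine ⟨h1, fun h3 => h2 fun ℓ hℓ lev H hH Q hQ c' hc' hpol => ?_⟩
      obtain ⟨ΦH, hΦH⟩ := Q207.GH.ex_oper hH.hodge.sum
      obtain ⟨⟨φ, hφ1, hφ2⟩, hkey⟩ := h3 ℓ hℓ lev H hH.hodge.sum hH.hodge.conj (fun p => hH.fil p) ΦH hΦH Q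
        (fun i => ⟨(hQ i).pos, (hQ i).det, Or.inl (hQ i).form⟩) (fun i => (hQ i).form)
        (fun γ hγ i => sym_of ((hQ i).sym (γ i) (hγ i).1)) c' hc' ⟨hpol.orth, hpol.pos⟩
      exact big_of (fun i => ⟨(hQ i).form, (hQ i).det⟩) hW hop hH.hodge hΦH hφ1 hφ2 hkey
    · refine (Set.Finite.pi (fun _ : Fin k => Pool.Agent.Y916.Sl.sint_fin m T)).subset ?_
      intro α hα i _
      exact (hα.1 i).1
  · have h1 := congrFun hCWΦ a
    have h2 : (CW * ΦW) a = Matrix.vecMul (CW a) ΦW := rfl
    rw [← h2, h1]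
    funext b
    rw [Matrix.diagonal_mul]
    rfl

/-- the hypergeometric part -/
theorem hypergeometric (k m w : ℕ) (hm : 1 ≤ m) (n : Fin k → ℕ) (β : ∀ i, Fin (n i) → ℚ) (hβ : ∀ i, Symplectic (β i)) :
    ∃ c C : ℝ, 0 < c ∧ ∀ (Ω : ∀ i, Matrix (Fin (n i)) (Fin (n i)) ℂ) (Q : ∀ i, Matrix (Fin (n i)) (Fin (n i)) ℤ),
      (∀ i, IsBaseChange (Ω i) (Q i)) → ∃ B : Set ℂ, B.Finite ∧
      ∀ W : ℤ → Submodule ℂ (Fin w → ℂ), IsHodge W → ∀ T : ℕ, 1 ≤ T →
      ({α : Fin k → ℂ | (∀ i, α i ∈ integers m T ∧ α i ∉ B) ∧ ¬ HypergeometricGeneric β Ω Q W α}.ncard : ℝ) ≤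
        C * (T : ℝ) ^ (-c) * ((integers m T).ncard : ℝ) ^ k := by
  classical
  obtain ⟨c, C, hc0, hmain⟩ := Q207.HN.mt_alg k m w hm n (β := β) fun i =>
    ⟨(hβ i).two, (hβ i).even, (hβ i).pos, (hβ i).dual⟩
  refine ⟨c, C, hc0, fun Ω Q hQ => ?_⟩
  have hsk : ∀ i, (Q i).transpose = -Q i ∧ (Q i).det ≠ 0 := by
    intro i
    obtain ⟨hΩ, γ, hγ, hQ⟩ := hQ i
    obtain ⟨h1, h2⟩ := Q207.HN.form_of (hβ i).two (hβ i).even hΩ hγ hQ
    refine ⟨?_, fun h0 => h2 ?_⟩
    · ext a b
      have h3 := congrFun (congrFun h1 a) b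
      rw [Matrix.transpose_apply, Matrix.neg_apply, Matrix.map_apply, Matrix.map_apply] at h3
      rw [Matrix.transpose_apply, Matrix.neg_apply]
      exact_mod_cast h3
    · have h3 : ((Q i).map fun x : ℤ => (x : ℂ)).det = (((Q i).det : ℤ) : ℂ) := (RingHom.map_det (Int.castRingHom ℂ) (Q i)).symm
      rw [h3, h0, Int.cast_zero]
  choose hΩ γ hγ hQγ using hQ
  obtain ⟨B, hBf, hB⟩ := hmain Ω Q γ hΩ hγ hQγ
  refine ⟨B, hBf, fun W hW T hT => ?_⟩
  obtain ⟨CW, ΦW, levW, hCW, hCWΦ, hreal, -, hop⟩ := Q207.HG.adapted hW.sum hW.conj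
  refine le_trans ?_ (hB CW ΦW levW hCW (fun a => ?_) hreal T hT)
  · refine Nat.cast_le.2 (Set.ncard_le_ncard ?_ ?_)
    · rintro α ⟨h1, h2⟩
      refine ⟨h1, fun h3 => h2 ⟨h3.1, fun ℓ hℓ lev H hH c' hc' hpol => ?_⟩⟩
      have hper : (fun i => Ω i * (solutions (β i) (1 / α i) (-ℓ i)).transpose) =
          fun i => Ω i * (Q207.HN.YL (β i) (1 / α i) (-ℓ i)).transpose := by
        funext i
        rw [solutions_eq]
      rw [hper] at hH
      obtain ⟨ΦH, hΦH⟩ := Q207.GH.ex_oper hH.hodge.sum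
      obtain ⟨⟨φ, hφ1, hφ2⟩, hkey⟩ := h3.2 ℓ hℓ lev H hH.hodge.sum hH.hodge.conj (fun p => hH.fil p) ΦH hΦH c' hc'
        ⟨hpol.orth, hpol.pos⟩
      exact big_of hsk hW hop hH.hodge hΦH hφ1 hφ2 hkey
    · refine (Set.Finite.pi (fun _ : Fin k => Pool.Agent.Y916.Sl.sint_fin m T)).subset ?_
      intro α hα i _
      exact (hα.1 i).1
  · have h1 := congrFun hCWΦ a
    have h2 : (CW * ΦW) a = Matrix.vecMul (CW a) ΦW := rfl
    rw [← h2, h1]
    funext b
    rw [Matrix.diagonal_mul]
    rfl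

/-- **The theorem**: (A) for families with periods which are polynomials in `log x` and in a connected family of G-functions,
and with full symplectic monodromy; (B) without any hypothesis for the symplectic hypergeometric families, repetitions
allowed. -/
theorem result (k m w : ℕ) (hm : 1 ≤ m) (n : Fin k → ℕ) :
    (∀ (e r : ℕ) (T₀ : Polynomial ℤ) (A : Fin r → Fin r → Polynomial ℤ) (h : Fin r → PowerSeries ℚ), GFamily T₀ A h →
      Connected h → ∃ c C : ℝ, 0 < c ∧ ∀ P : ∀ i, Fin (n i) → Fin (n i) → MvPolynomial (Option (Fin r)) ℂ,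
      (∀ i x y, (P i x y).totalDegree ≤ e) → ∃ B : Set ℂ, B.Finite ∧
      ∀ W : ℤ → Submodule ℂ (Fin w → ℂ), IsHodge W → ∀ T : ℕ, 1 ≤ T →
      ({α : Fin k → ℂ | (∀ i, α i ∈ integers m T ∧ α i ∉ B) ∧ ¬ FamiliesGeneric h P W α}.ncard : ℝ) ≤
        C * (T : ℝ) ^ (-c) * ((integers m T).ncard : ℝ) ^ k) ∧
    ∀ β : ∀ i, Fin (n i) → ℚ, (∀ i, Symplectic (β i)) → ∃ c C : ℝ, 0 < c ∧
      ∀ (Ω : ∀ i, Matrix (Fin (n i)) (Fin (n i)) ℂ) (Q : ∀ i, Matrix (Fin (n i)) (Fin (n i)) ℤ),
      (∀ i, IsBaseChange (Ω i) (Q i)) → ∃ B : Set ℂ, B.Finite ∧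
      ∀ W : ℤ → Submodule ℂ (Fin w → ℂ), IsHodge W → ∀ T : ℕ, 1 ≤ T →
      ({α : Fin k → ℂ | (∀ i, α i ∈ integers m T ∧ α i ∉ B) ∧ ¬ HypergeometricGeneric β Ω Q W α}.ncard : ℝ) ≤
        C * (T : ℝ) ^ (-c) * ((integers m T).ncard : ℝ) ^ k :=
  ⟨fun e r T₀ A h hG hc => general k e m r w hm n T₀ A h hG hc, fun β hβ => hypergeometric k m w hm n β hβ⟩

end Pool.Agent.Results.MP_b8862a_ag.MumfordTateOverNumberFields
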