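import Pool.Agent.Q282.OI.MainE
import Pool.Agent.Y155.ZI.Tens

/-!
# Orthogonal motives of even rank: the Mumford-Tate conjecture at one prime implies it at 100 percent
of the primes

Let `M` be a motive over a number field `K` with a symmetric polarization, of even rank `N = 2 n ≥ 8`
(for instance the primitive part of the cohomology of even degree of a smooth projective variety, suitably
twisted, or the orthogonal complement of the algebraic classes in it), and let `V_ℓ` be its `ℓ`-adic
realizations: orthogonal representations of the Galois group `G_K` on `ℚ_ℓ ^ N`, with a form `B_ℓ`, such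
that at the places `v ∉ S` the geometric Frobenius element has a characteristic polynomial `P_v` with
rational coefficients, independent of `ℓ`.

**Theorem.** The following statements are equivalent:
(1) for ONE prime number `ℓ` which does not divide `4 (n - 1) (n - 2)` and for which the determinant of
`B_ℓ` has even valuation the image of `G_K` contains an open subgroup of the orthogonal group of `B_ℓ`;
(2) this is true for all prime numbers outside of a set of natural density zero, the determinant of `B_ℓ`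
has even valuation there, and every multilinear form in less than `N` variables on `V_ℓ` which is
invariant under an open subgroup of `G_K` is a linear combination of products of values of `B_ℓ`;
(3) (a finite check) there are an automorphism `σ` of the algebraic closure of `ℚ`, places `v_d ∉ S` for
`0 < d < N` and a place `w ∉ S` such that at these places the roots of the Frobenius polynomial are simple
and no quotient of two different roots is a root of unity, no set of `d` roots of `P_{v_d}` is stable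
under `σ`, `± 1` is not a root of `P_w`, `x / y = z / u` for roots `x ≠ y`, `z`, `u` of `P_w` only in the
trivial cases `(z, u) = (x, y)` and `(z, u) = (1 / y, 1 / x)`, and `σ` fixes a root of `P_w`.

So if the motivic Galois group of `M` is as large as the form permits, the Mumford-Tate conjecture for `M` at
one prime implies the Mumford-Tate conjecture for `M` and the Tate conjecture for all classes of degree
less than `N` on the tensor powers of `M`, over all finite extensions of `K`, at 100 percent of the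
primes, and this can be proved by a computation with finitely many Frobenius elements. Nothing is
assumed about the representations at the other primes (they could be reducible or not semisimple).

Idea of the proof. From (1) to (3): the Frobenius elements are dense in the open image, so one can
prescribe the `ℓ`-adic type of the Frobenius tori, for instance an unramified one for the place `w` and
tamely ramified ones for the places `v_d`. From (3) to (2): at the primes `ℓ` whose Frobenius class contains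
`σ` the polynomials `P_{v_d}` have no factor of degree `d` over `ℚ_ℓ` and `P_w` has a root, so `V_ℓ` is
irreducible, and the root spaces of the Frobenius element at `w` show that the image is open. With
infinitely many such primes one constructs for every number field `M` places whose Frobenius
polynomials have the same properties over `M` (local types at several primes, and Minkowski's theorem).
A prime `ℓ` at which the image is not open avoids certain classes in the Galois groups of infinitely many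
independent fields which one gets in this way, so these `ℓ` have density zero by Chebotarev's theorem.
-/

set_option autoImplicit false

namespace Pool.Agent.Results.MP_b8862a_ag.OneOrthogonalPrimeDecides

open Matrix Polynomial Filter Topology NumberField IsDedekindDomain

/-- the absolute Galois group of `K`, with its profinite (Krull) topology -/
abbrev AbsoluteGaloisGroup (K : Type) [Field K] : Type := Gal(AlgebraicClosure K/K)

/-- `σ` is an (arithmetic) Frobenius element at the prime `v` of the number field `K`: for some prime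
`Q` of the algebraic closure above `v` it acts on the residue field as `x ↦ x ^ N(v)` -/
def IsFrobenius {K : Type} [Field K] [NumberField K] (v : HeightOneSpectrum (𝓞 K))
    (σ : AbsoluteGaloisGroup K) : Prop :=
  ∃ Q : Ideal (𝓞 (AlgebraicClosure K)), Q.IsMaximal ∧
    Q.comap (algebraMap (𝓞 K) (𝓞 (AlgebraicClosure K))) = v.asIdeal ∧
    ∀ x : 𝓞 (AlgebraicClosure K), σ • x - x ^ Ideal.absNorm v.asIdeal ∈ Q

/-- `ρ` is a continuous representation of `G_K` on `ℚ_ℓ ^ N` which preserves the nondegenerate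
symmetric form with the matrix `B`, and for all `v ∉ S` which are prime to `ℓ` the characteristic
polynomial of the geometric Frobenius elements `σ⁻¹` (`σ` arithmetic) at `v` is `P v` -/
def IsOrthogonalSystem (K : Type) [Field K] [NumberField K] (N : ℕ)
    (S : Set (HeightOneSpectrum (𝓞 K))) (P : HeightOneSpectrum (𝓞 K) → ℚ[X]) (ℓ : ℕ)
    [Fact ℓ.Prime] (ρ : AbsoluteGaloisGroup K →* Matrix (Fin N) (Fin N) ℚ_[ℓ])
    (B : Matrix (Fin N) (Fin N) ℚ_[ℓ]) : Prop :=
  Continuous ρ ∧ Bᵀ = B ∧ B.det ≠ 0 ∧ (∀ σ, (ρ σ)ᵀ * B * ρ σ = B) ∧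
    ∀ v ∉ S, (ℓ : 𝓞 K) ∉ v.asIdeal → ∀ σ : AbsoluteGaloisGroup K, IsFrobenius v σ →
      (ρ σ⁻¹).charpoly = (P v).map (algebraMap ℚ ℚ_[ℓ])

/-- the image of `ρ` contains a neighbourhood of `1` in the orthogonal group of `B` -/
def HasOpenImage {K : Type} [Field K] {N : ℕ} (ℓ : ℕ) [Fact ℓ.Prime]
    (ρ : AbsoluteGaloisGroup K →* Matrix (Fin N) (Fin N) ℚ_[ℓ])
    (B : Matrix (Fin N) (Fin N) ℚ_[ℓ]) : Prop :=
  ∃ ε : ℝ, 0 < ε ∧ ∀ g : Matrix (Fin N) (Fin N) ℚ_[ℓ], gᵀ * B * g = B →
    (∀ i j, ‖(g - 1) i j‖ < ε) → ∃ σ, ρ σ = g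

/-- every multilinear form in `k < N` variables on `ℚ_ℓ ^ N` which is invariant under an open subgroup
of the Galois group is a linear combination of the products `∏ B(v_j, v_{π j})` (one factor for every
pair `{j, π j}`), `π` a perfect matching of the variables -/
def TateTensorsFromForm {K : Type} [Field K] {N : ℕ} (ℓ : ℕ) [Fact ℓ.Prime]
    (ρ : AbsoluteGaloisGroup K →* Matrix (Fin N) (Fin N) ℚ_[ℓ])
    (B : Matrix (Fin N) (Fin N) ℚ_[ℓ]) : Prop :=
  ∀ k < N, ∀ (φ : MultilinearMap ℚ_[ℓ] (fun _ : Fin k => Fin N → ℚ_[ℓ]) ℚ_[ℓ])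
    (U : Subgroup (AbsoluteGaloisGroup K)), IsOpen (U : Set (AbsoluteGaloisGroup K)) →
    (∀ σ ∈ U, ∀ v, φ (fun j => ρ σ *ᵥ v j) = φ v) →
    (fun v => φ v) ∈ Submodule.span ℚ_[ℓ] {f : (Fin k → Fin N → ℚ_[ℓ]) → ℚ_[ℓ] |
      ∃ π : Equiv.Perm (Fin k), (∀ j, π (π j) = j) ∧ (∀ j, π j ≠ j) ∧
        ∀ v, f v = ∏ j with j < π j, (v j ⬝ᵥ B *ᵥ v (π j))}

/-- the roots of `P v` are simple, and different roots have different `n`-th powers for all `n > 0` -/
def IsRegularPlace {K : Type} [Field K] [NumberField K]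
    (S : Set (HeightOneSpectrum (𝓞 K))) (P : HeightOneSpectrum (𝓞 K) → ℚ[X])
    (v : HeightOneSpectrum (𝓞 K)) : Prop :=
  v ∉ S ∧ (P v).Separable ∧ ∀ (n : ℕ) (x y : AlgebraicClosure ℚ), 0 < n →
    aeval x (P v) = 0 → aeval y (P v) = 0 → x ^ n = y ^ n → x = y

/-- `1` and `-1` are no roots of `P v`, and the quotients `x / y` of different roots are different,
except for `x / y = (1 / y) / (1 / x)` -/
def IsGenericPolynomial (Q : ℚ[X]) : Prop :=
  (∀ x : AlgebraicClosure ℚ, aeval x Q = 0 → x * x ≠ 1) ∧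
    ∀ x y z u : AlgebraicClosure ℚ, aeval x Q = 0 → aeval y Q = 0 → aeval z Q = 0 →
      aeval u Q = 0 → x ≠ y → x * u = z * y → (z = x ∧ u = y) ∨ (z * y = 1 ∧ u * x = 1)

/-- the finite data: `σ` is an automorphism of the algebraic closure of `ℚ`, `v 1, ..., v (N - 1)` and
`w` are places -/
def IsWitness {K : Type} [Field K] [NumberField K] (N : ℕ)
    (S : Set (HeightOneSpectrum (𝓞 K))) (P : HeightOneSpectrum (𝓞 K) → ℚ[X])
    (v : ℕ → HeightOneSpectrum (𝓞 K)) (w : HeightOneSpectrum (𝓞 K))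
    (σ : AbsoluteGaloisGroup ℚ) : Prop :=
  (∀ d : ℕ, 0 < d → d < N → IsRegularPlace S P (v d) ∧
    ∀ T : Set (AlgebraicClosure ℚ), (∀ x ∈ T, aeval x (P (v d)) = 0) → (∀ x ∈ T, σ x ∈ T) →
      T.ncard ≠ d) ∧
  IsRegularPlace S P w ∧ IsGenericPolynomial (P w) ∧
    ∃ x : AlgebraicClosure ℚ, aeval x (P w) = 0 ∧ σ x = x

/-- the set `A` of prime numbers has natural density zero -/
def HasDensityZero (A : Set ℕ) : Prop :=
  Tendsto (fun n : ℕ => (Nat.card {ℓ : ℕ // ℓ ≤ n ∧ ℓ ∈ A} : ℝ) / (Nat.primeCounting n : ℝ))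
    atTop (𝓝 0)

/-- **One prime decides (orthogonal motives of even rank at least eight).** -/
theorem result (K : Type) [Field K] [NumberField K] (n N : ℕ) (hn : 4 ≤ n) (hN : N = 2 * n)
    (S : Set (HeightOneSpectrum (𝓞 K))) (hS : S.Finite) (P : HeightOneSpectrum (𝓞 K) → ℚ[X])
    (ρ : ∀ (ℓ : ℕ) [Fact ℓ.Prime], AbsoluteGaloisGroup K →* Matrix (Fin N) (Fin N) ℚ_[ℓ])
    (B : ∀ (ℓ : ℕ) [Fact ℓ.Prime], Matrix (Fin N) (Fin N) ℚ_[ℓ])
    (hρ : ∀ (ℓ : ℕ) [Fact ℓ.Prime], IsOrthogonalSystem K N S P ℓ (ρ ℓ) (B ℓ)) :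
    List.TFAE
      [∃ ℓ : ℕ, ∃ _ : Fact ℓ.Prime, ¬ ℓ ∣ 4 * ((n - 1) * (n - 2)) ∧
        Even (Padic.valuation (B ℓ).det) ∧ HasOpenImage ℓ (ρ ℓ) (B ℓ),
      HasDensityZero {ℓ | ∃ _ : Fact ℓ.Prime, ¬ (Even (Padic.valuation (B ℓ).det) ∧
        HasOpenImage ℓ (ρ ℓ) (B ℓ) ∧ TateTensorsFromForm ℓ (ρ ℓ) (B ℓ))},
      ∃ (v : ℕ → HeightOneSpectrum (𝓞 K)) (w : HeightOneSpectrum (𝓞 K))
        (σ : AbsoluteGaloisGroup ℚ), IsWitness N S P v w σ] := by
  have hTENS : Y142.ZI.S_TENS := Y155.ZI.t
  have hCAY : Y142.ZI.S_CAY := Q153.OI.CAY.t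
  have key := Q282.OI.even (K := K) (S := S) (P := P) hn hN hS ρ B hρ
  have h12 := key.out 0 1
  have h13 := key.out 0 2
  have htens : ∀ (ℓ : ℕ) [Fact ℓ.Prime], HasOpenImage ℓ (ρ ℓ) (B ℓ) →
      TateTensorsFromForm ℓ (ρ ℓ) (B ℓ) := by
    intro ℓ _ ho k hk φ U hU hφ
    exact hTENS ℓ N _ (ρ ℓ) (hρ ℓ).1 (B ℓ) (hρ ℓ).2.1 (hρ ℓ).2.2.1
      (hCAY ℓ N _ (ρ ℓ) (B ℓ) (hρ ℓ).2.1 (hρ ℓ).2.2.1 ho) k φ U hk hU hφ
  tfae_have 1 ↔ 2 := by
    refine h12.trans ?_
    have hset : {ℓ : ℕ | ∃ _ : Fact ℓ.Prime, ¬ (Even (Padic.valuation (B ℓ).det) ∧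
        Y142.ZI.OpenImage ℓ (ρ ℓ) (B ℓ))} = {ℓ | ∃ _ : Fact ℓ.Prime,
        ¬ (Even (Padic.valuation (B ℓ).det) ∧
        HasOpenImage ℓ (ρ ℓ) (B ℓ) ∧ TateTensorsFromForm ℓ (ρ ℓ) (B ℓ))} := by
      ext ℓ
      constructor
      · rintro ⟨hp, h⟩
        exact ⟨hp, fun h' => h ⟨h'.1, h'.2.1⟩⟩
      · rintro ⟨hp, h⟩
        exact ⟨hp, fun h' => h ⟨h'.1, h'.2, htens ℓ h'.2⟩⟩
    rw [hset]
    exact Iff.rfl
  tfae_have 1 ↔ 3 := by
    refine h13.trans ?_
    constructor
    · rintro ⟨v, w, σ, hv, hw1, hw2, hw3, hw4, hw5, hw6⟩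
      exact ⟨v, w, σ, fun d h1 h2 => ⟨⟨(hv d h1 h2).1, (hv d h1 h2).2.1, (hv d h1 h2).2.2.1⟩,
        (hv d h1 h2).2.2.2⟩, ⟨hw1, hw2, hw3⟩, ⟨hw4, hw5⟩, hw6⟩
    · rintro ⟨v, w, σ, hv, ⟨hw1, hw2, hw3⟩, ⟨hw4, hw5⟩, hw6⟩
      exact ⟨v, w, σ, fun d h1 h2 => ⟨(hv d h1 h2).1.1, (hv d h1 h2).1.2.1, (hv d h1 h2).1.2.2,
        (hv d h1 h2).2⟩, hw1, hw2, hw3, hw4, hw5, hw6⟩
  tfae_finish

end Pool.Agent.Results.MP_b8862a_ag.OneOrthogonalPrimeDecides
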